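import Pool.Agent.helper84.VD.SpecB2

/-! Row SSE of project VD (MP_07c750_an): sections of the geodesic flow exist. -/

set_option autoImplicit false

open scoped ContDiff Topology InnerProductSpace ENNReal
open MeasureTheory Filter Set

namespace Pool.Agent.VD

noncomputable section

/-- `C^(1,1)` maps are `C^1` on the open ball -/
theorem SSE_cd {A B : Type} [NormedAddCommGroup A] [NormedSpace ℝ A] [NormedAddCommGroup B] [NormedSpace ℝ B] {M r e : ℝ} {f : A → B}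
    (hM : 0 ≤ M) (h : C11 M r 0 f) (he : e ≤ r) : ContDiffOn ℝ 1 f (Metric.ball 0 e) := by
  have hb : ∀ a ∈ Metric.ball (0 : A) e, ‖a - 0‖ ≤ r := by
    intro a ha
    rw [mem_ball_iff_norm] at ha
    exact ha.le.trans he
  have h1 : ContDiffOn ℝ (0 + 1) f (Metric.ball 0 e) := by
    rw [contDiffOn_succ_iff_fderiv_of_isOpen Metric.isOpen_ball]
    refine ⟨fun a ha => (h.dif a (hb a ha)).differentiableWithinAt, fun h0 => absurd h0 (by simp), ?_⟩
    rw [contDiffOn_zero]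
    refine (LipschitzOnWith.of_dist_le_mul (K := ⟨M, hM⟩) ?_).continuousOn
    intro a ha b hb'
    rw [dist_eq_norm, dist_eq_norm]
    exact h.lip a b (hb a ha) (hb b hb')
  simpa using h1

/-- the Poincare map is in the class `HYP` -/
theorem SSE_hyp {m : ℕ} {c C' e0 M r ρ : ℝ} {F : Z m → Z m} (hSDT : SDT_stmt) (hM : 1 ≤ M) (hC : 2 * M ≤ C') (h : C11 M r 0 F) (he : e0 ≤ r) (heρ : e0 ≤ ρ)
    (hq : ∀ a, ‖a‖ < ρ → (∀ v, QQ v + c * ‖v‖ ^ 2 ≤ QQ (fderiv ℝ F a v)) ∧ ∀ v w, omg (d := m) (fderiv ℝ F a v) (fderiv ℝ F a w) = omg (d := m) v w) :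
    HYP c C' e0 F := by
  have hb : ∀ a ∈ Metric.ball (0 : Z m) e0, ‖a - 0‖ ≤ r ∧ ‖a‖ < ρ := by
    intro a ha
    rw [mem_ball_iff_norm] at ha
    refine ⟨ha.le.trans he, ?_⟩
    rw [sub_zero] at ha
    exact lt_of_lt_of_le ha heρ
  refine ⟨SSE_cd (by linarith) h he, fun a ha => ⟨fun w => ?_, fun w => ?_, (hq a (hb a ha).2).1⟩, fun a ha b hb' => ?_⟩
  · have h1 := h.bd a (hb a ha).1
    calc ‖fderiv ℝ F a w‖ ≤ ‖fderiv ℝ F a‖ * ‖w‖ := ContinuousLinearMap.le_opNorm _ _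
      _ ≤ C' * ‖w‖ := mul_le_mul_of_nonneg_right (by linarith) (norm_nonneg _)
  · have h1 := h.bd a (hb a ha).1
    have h2 := (hSDT m (fderiv ℝ F a) (hq a (hb a ha).2).2).2 w
    refine h2.trans (mul_le_mul_of_nonneg_right ?_ (norm_nonneg _))
    linarith
  · have h1 := h.lip a b (hb a ha).1 (hb b hb').1
    exact h1.trans (mul_le_mul_of_nonneg_right (by linarith) (norm_nonneg _))

theorem SSE_proof (hSC1 : SC1_stmt) (hSFE : SFE_stmt) (hSFI : SFI_stmt) (hSKA : SKA_stmt) (hSTH : STH_stmt) (hSPR : SPR_stmt) (hSPQ : SPQ_stmt) (hSDT : SDT_stmt) : SSE_stmt := by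
  intro m C C0 hC
  obtain ⟨M5, hM5, hFI⟩ := hSFI m C hC
  obtain ⟨C1, r1, hC1, hr1, hr1', hKA⟩ := hSKA m C hC
  obtain ⟨M2, ρ2, hM2, hρ2, hρ2', hTH⟩ := hSTH m C C1 r1 hC hC1 hr1
  obtain ⟨M3, ρ3, hM3, hρ3, hρ3', hPR⟩ := hSPR m C C1 r1 hC hC1 hr1
  obtain ⟨c, ρ4, hc, hρ4, hρ4', hPQ⟩ := hSPQ m C C1 r1 M3 ρ3 hC hC1 hr1 hM3 hρ3
  -- the constants
  obtain ⟨e1, he1, he1a, he1b, he1c, he1d⟩ : ∃ e1 : ℝ, 0 < e1 ∧ e1 ≤ r1 ∧ e1 ≤ ρ2 ∧ C1 * e1 ≤ 1 ∧ M2 * (e1 + e1) ≤ 1 / C := by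
    have hp1 : 0 < 1 / C1 := by positivity
    have hp2 : 0 < 1 / C / (2 * M2) := by positivity
    refine ⟨min (min r1 ρ2) (min (1 / C1) (1 / C / (2 * M2))), lt_min (lt_min hr1 hρ2) (lt_min hp1 hp2),
      (min_le_left _ _).trans (min_le_left _ _), (min_le_left _ _).trans (min_le_right _ _), ?_, ?_⟩
    · have h1 : min (min r1 ρ2) (min (1 / C1) (1 / C / (2 * M2))) ≤ 1 / C1 := (min_le_right _ _).trans (min_le_left _ _)
      calc C1 * min (min r1 ρ2) (min (1 / C1) (1 / C / (2 * M2))) ≤ C1 * (1 / C1) := mul_le_mul_of_nonneg_left h1 (by linarith)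
        _ = 1 := by field_simp
    · have h1 : min (min r1 ρ2) (min (1 / C1) (1 / C / (2 * M2))) ≤ 1 / C / (2 * M2) := (min_le_right _ _).trans (min_le_right _ _)
      calc M2 * (min (min r1 ρ2) (min (1 / C1) (1 / C / (2 * M2))) + min (min r1 ρ2) (min (1 / C1) (1 / C / (2 * M2)))) ≤ M2 * (1 / C / (2 * M2) + 1 / C / (2 * M2)) :=
            mul_le_mul_of_nonneg_left (add_le_add h1 h1) (by linarith)
        _ = 1 / C := by field_simp; ring
  have he1e : e1 ≤ 1 := he1a.trans hr1'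
  obtain ⟨C'', hC', hC'a, hC'b, hC'c, hC'd, hC'e⟩ : ∃ C' : ℝ, 1 ≤ C' ∧ C * C1 ≤ C' ∧ M2 * C ≤ C' ∧ M3 * C ≤ C' ∧ 2 * M3 ≤ C' ∧ 4 * C ≤ C' := by
    refine ⟨4 * C * C1 * M2 * M3, ?_, ?_, ?_, ?_, ?_, ?_⟩
    · nlinarith [one_le_mul_of_one_le_of_one_le hC hC1, one_le_mul_of_one_le_of_one_le hM2 hM3, one_le_mul_of_one_le_of_one_le (one_le_mul_of_one_le_of_one_le hC hC1) (one_le_mul_of_one_le_of_one_le hM2 hM3)]
    · have h1 := one_le_mul_of_one_le_of_one_le hM2 hM3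
      have h2 : 0 ≤ C * C1 := by positivity
      nlinarith
    · have h1 := one_le_mul_of_one_le_of_one_le hC1 hM3
      have h2 : 0 ≤ M2 * C := by positivity
      nlinarith
    · have h1 := one_le_mul_of_one_le_of_one_le hC1 hM2
      have h2 : 0 ≤ M3 * C := by positivity
      nlinarith
    · have h1 := one_le_mul_of_one_le_of_one_le (one_le_mul_of_one_le_of_one_le hC hC1) hM2
      nlinarith
    · have h1 := one_le_mul_of_one_le_of_one_le (one_le_mul_of_one_le_of_one_le hC1 hM2) hM3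
      nlinarith
  obtain ⟨C', hC', hC'a, hC'b, hC'c, hC'd, hC'e, hC'f, hC'0⟩ : ∃ C' : ℝ, 1 ≤ C' ∧ C * C1 ≤ C' ∧ M2 * C ≤ C' ∧ M3 * C ≤ C' ∧ 2 * M3 ≤ C' ∧ 4 * C ≤ C' ∧ M5 * C ≤ C' ∧ C0 ≤ C' :=
    ⟨max C'' (max (M5 * C) C0), hC'.trans (le_max_left _ _), hC'a.trans (le_max_left _ _), hC'b.trans (le_max_left _ _), hC'c.trans (le_max_left _ _), hC'd.trans (le_max_left _ _), hC'e.trans (le_max_left _ _),
      (le_max_left _ _).trans (le_max_right _ _), (le_max_right _ _).trans (le_max_right _ _)⟩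
  obtain ⟨e0, he0, he0a, he0b, he0c, he0d, he0e, he0f, he0h⟩ : ∃ e0 : ℝ, 0 < e0 ∧ 4 * C' * e0 ≤ e1 ∧ e0 ≤ 1 / C ∧ C * e0 ≤ ρ2 ∧ C * e0 ≤ ρ3 ∧ C * e0 ≤ ρ4 ∧ e0 ≤ ρ4 ∧ C * e0 ≤ r1 / C1 := by
    have hq : ∀ x : ℝ, 0 < x → 0 < x / C := fun x hx => by positivity
    have hs : 0 < e1 / (4 * C') := by positivity
    have hr : 0 < r1 / C1 := by positivity
    have hcm : ∀ x y : ℝ, x ≤ y / C → C * x ≤ y := by
      intro x y hxy
      calc C * x ≤ C * (y / C) := mul_le_mul_of_nonneg_left hxy (by linarith)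
        _ = y := by field_simp
    refine ⟨min (min (e1 / (4 * C')) (1 / C)) (min (min (ρ2 / C) (r1 / C1 / C)) (min (ρ3 / C) (ρ4 / C))),
      lt_min (lt_min hs (hq 1 one_pos)) (lt_min (lt_min (hq ρ2 hρ2) (hq _ hr)) (lt_min (hq ρ3 hρ3) (hq ρ4 hρ4))), ?_, ?_, ?_, ?_, ?_, ?_, ?_⟩
    · have h1 : min (min (e1 / (4 * C')) (1 / C)) (min (min (ρ2 / C) (r1 / C1 / C)) (min (ρ3 / C) (ρ4 / C))) ≤ e1 / (4 * C') := (min_le_left _ _).trans (min_le_left _ _)
      calc 4 * C' * min (min (e1 / (4 * C')) (1 / C)) (min (min (ρ2 / C) (r1 / C1 / C)) (min (ρ3 / C) (ρ4 / C))) ≤ 4 * C' * (e1 / (4 * C')) := mul_le_mul_of_nonneg_left h1 (by linarith)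
        _ = e1 := by field_simp
    · exact (min_le_left _ _).trans (min_le_right _ _)
    · exact hcm _ _ ((min_le_right _ _).trans ((min_le_left _ _).trans (min_le_left _ _)))
    · exact hcm _ _ ((min_le_right _ _).trans ((min_le_right _ _).trans (min_le_left _ _)))
    · exact hcm _ _ ((min_le_right _ _).trans ((min_le_right _ _).trans (min_le_right _ _)))
    · exact ((min_le_right _ _).trans ((min_le_right _ _).trans (min_le_right _ _))).trans (div_le_self hρ4.le hC)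
    · exact hcm _ _ ((min_le_right _ _).trans ((min_le_left _ _).trans (min_le_right _ _)))
  refine ⟨c, C', e0, e1, hc, hC'0, ?_⟩
  intro Γ _ _ K G Φ D hG
  -- the choice of the group elements, the frames and the charts
  have hex : ∀ z : P (m + 1), ∃ (γ : Γ) (e : W m →L[ℝ] V (m + 1)) (κ : Z m → P (m + 1)), nrm G z = 1 → lft γ z ∈ SK K G ∧ Frm G (lft γ z) e ∧ KC C1 r1 G (lft γ z) e κ := by
    intro z
    by_cases hz : nrm G z = 1
    · obtain ⟨γ, hγ⟩ := hG.cov z hz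
      obtain ⟨e, he⟩ := hSFE m G (lft γ z) hG.met hγ.2
      obtain ⟨κ, hκ⟩ := hKA Γ K G Φ D hG (lft γ z) hγ e he
      exact ⟨γ, e, κ, fun _ => ⟨hγ, he, hκ⟩⟩
    · exact ⟨1, 0, fun _ => z, fun h => absurd h hz⟩
  choose g e k hk using hex
  have li : ∀ (γ : Γ) (p : P (m + 1)), lft γ⁻¹ (lft γ p) = p := by
    intro γ p
    rw [← hG.lm, inv_mul_cancel, hG.l1]
  have li' : ∀ (γ : Γ) (p : P (m + 1)), lft γ (lft γ⁻¹ p) = p := by
    intro γ p
    rw [← hG.lm, mul_inv_cancel, hG.l1]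
  have nl : ∀ (γ : Γ) (p : P (m + 1)), nrm G (lft γ p) = nrm G p := by
    intro γ p
    have h1 := (hG.hm γ 0 p).1
    have h2 : MM Φ γ ((0 : ℝ), p) = lft γ p := by
      show lft γ (Φ 0 p) = lft γ p
      rw [hG.fl.zero]
    rwa [h2] at h1
  have c11 := fun z (hz : nrm G z = 1) => (hSC1 (Z m) (P (m + 1)) (P (m + 1)) C1 r1 0 hC1 hr1).1 (k z) (hk z hz).2.2.c11
  have klip : ∀ z, nrm G z = 1 → ∀ a b : Z m, ‖a‖ ≤ r1 → ‖b‖ ≤ r1 → ‖k z a - k z b‖ ≤ C1 * ‖a - b‖ := by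
    intro z hz a b ha hb
    exact (c11 z hz a b (by rwa [sub_zero]) (by rwa [sub_zero])).1
  have kz : ∀ z, nrm G z = 1 → ∀ a : Z m, ‖a‖ ≤ e1 → ‖k z a - lft (g z) z‖ ≤ 1 := by
    intro z hz a ha
    have h1 := klip z hz a 0 (ha.trans he1a) (by rw [norm_zero]; exact hr1.le)
    rw [(hk z hz).2.2.zero, sub_zero] at h1
    refine h1.trans (le_trans ?_ he1c)
    exact mul_le_mul_of_nonneg_left ha (by linarith)
  refine ⟨fun z a => lft (g z)⁻¹ (k z a), ?_⟩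
  refine ⟨hc, hC', he0, he0a, ?_, ?_, ?_, ?_, ?_, ?_, ?_, ?_⟩
  · intro z hz
    show lft (g z)⁻¹ (k z 0) = z
    rw [(hk z hz).2.2.zero, li]
  · intro z hz a ha
    show nrm G (lft (g z)⁻¹ (k z a)) = 1
    rw [nl]
    exact ((hk z hz).2.2.on a (ha.trans he1a)).1
  · intro z hz a ha
    obtain ⟨h1, h2, h3⟩ := hk z hz
    have h4 := (h3.on a (ha.trans he1a)).2.1
    show (g z)⁻¹ • (k z a).1 = z.1 ↔ a.1 = 0
    rw [h4]
    show (g z)⁻¹ • (g z • z.1 + e z a.1) = z.1 ↔ a.1 = 0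
    constructor
    · intro h5
      have h6 : g z • z.1 + e z a.1 = g z • z.1 := inv_smul_eq_iff.1 h5
      have h7 : e z a.1 = 0 := by simpa using h6
      have h8 := h2.on a.1 a.1
      rw [h7, map_zero, inner_zero_left] at h8
      exact inner_self_eq_zero.1 h8.symm
    · intro h5
      rw [h5, map_zero, add_zero, inv_smul_smul]
  · intro z hz u hu huz hd
    obtain ⟨h1, h2, h3⟩ := hk z hz
    have h4 : D (lft (g z) z) (lft (g z) u) = D z u := hG.di _ _ _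
    have h5 := hG.d2 _ h1 (lft (g z) z) (lft (g z) u) (by rw [sub_self, norm_zero]; positivity) (by rw [h4]; exact hd.trans he0b)
    rw [h4, norm_sub_rev] at h5
    have h6 : C * D z u ≤ C * e0 := mul_le_mul_of_nonneg_left hd (by linarith)
    have h7 : (lft (g z) u).1 - (lft (g z) z).1 = 0 := by
      show g z • u.1 - g z • z.1 = 0
      rw [huz, sub_self]
    have h8 := h3.un (lft (g z) u) (by rw [nl]; exact hu) (h5.trans (h6.trans he0h)) (by rw [h7, inner_zero_right])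
    have h9 := (hFI Γ K G Φ D hG _ h1 _ h2).2.2.2.2.2.1 (lft (g z) u - lft (g z) z)
    have h10 : (LL G (lft (g z) z) (e z) (lft (g z) u - lft (g z) z)).1 = 0 := by
      show ContinuousLinearMap.adjoint (e z) (G (lft (g z) z).1 ((lft (g z) u).1 - (lft (g z) z).1)) = 0
      rw [h7, map_zero, map_zero]
    refine ⟨(LL G (lft (g z) z) (e z) (lft (g z) u - lft (g z) z)).2, ?_, ?_⟩
    · show u = lft (g z)⁻¹ (k z (0, (LL G (lft (g z) z) (e z) (lft (g z) u - lft (g z) z)).2))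
      rw [← h10, Prod.mk.eta, h8, li]
    · calc ‖(LL G (lft (g z) z) (e z) (lft (g z) u - lft (g z) z)).2‖ ≤ ‖LL G (lft (g z) z) (e z) (lft (g z) u - lft (g z) z)‖ := norm_snd_le _
        _ ≤ M5 * ‖lft (g z) u - lft (g z) z‖ := h9
        _ ≤ M5 * (C * D z u) := mul_le_mul_of_nonneg_left h5 (by linarith)
        _ = (M5 * C) * D z u := by ring
        _ ≤ C' * D z u := mul_le_mul_of_nonneg_right hC'f (hG.d0 z u).1
  · intro z hz a b ha hb
    show D (lft (g z)⁻¹ (k z a)) (lft (g z)⁻¹ (k z b)) ≤ C' * ‖a - b‖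
    rw [hG.di]
    have h1 := hG.d1 _ (hk z hz).1 _ _ (kz z hz a ha) (kz z hz b hb)
    have h2 := klip z hz a b (ha.trans he1a) (hb.trans he1a)
    calc D (k z a) (k z b) ≤ C * ‖k z a - k z b‖ := h1
      _ ≤ C * (C1 * ‖a - b‖) := mul_le_mul_of_nonneg_left h2 (by linarith)
      _ = (C * C1) * ‖a - b‖ := by ring
      _ ≤ C' * ‖a - b‖ := mul_le_mul_of_nonneg_right hC'a (norm_nonneg _)
  · intro z hz p hp hd
    obtain ⟨h1, h2, h3⟩ := hk z hz
    have h4 : D (lft (g z) z) (lft (g z) p) = D z p := hG.di _ _ _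
    have h5 := hG.d2 _ h1 (lft (g z) z) (lft (g z) p) (by rw [sub_self, norm_zero]; positivity) (by rw [h4]; exact hd.trans he0b)
    rw [h4, norm_sub_rev] at h5
    have h6 : C * D z p ≤ C * e0 := mul_le_mul_of_nonneg_left hd (by linarith)
    obtain ⟨s, a, h7, h8, h9⟩ := (hTH Γ K G Φ D hG _ h1 _ _ h2 h3).2 (lft (g z) p) (by rw [nl]; exact hp) (h5.trans (h6.trans he0c))
    have h10 : M2 * ‖lft (g z) p - lft (g z) z‖ ≤ C' * D z p := by
      calc M2 * ‖lft (g z) p - lft (g z) z‖ ≤ M2 * (C * D z p) := mul_le_mul_of_nonneg_left h5 (by linarith)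
        _ = (M2 * C) * D z p := by ring
        _ ≤ C' * D z p := mul_le_mul_of_nonneg_right hC'b (hG.d0 z p).1
    refine ⟨s, a, ?_, h8.trans h10, h9.trans h10⟩
    show p = Φ s (lft (g z)⁻¹ (k z a))
    rw [hG.lf, ← h7, li]
  · intro z hz a a' s s' ha ha' hs hs'
    obtain ⟨h1, h2, h3⟩ := hk z hz
    show ‖a - a'‖ + |s - s'| ≤ C' * D (Φ s (lft (g z)⁻¹ (k z a))) (Φ s' (lft (g z)⁻¹ (k z a')))
    rw [hG.lf, hG.lf, hG.di]
    have hT := (hTH Γ K G Φ D hG _ h1 _ _ h2 h3).1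
    have hDn := (hG.d0 (Φ s (k z a)) (Φ s' (k z a'))).1
    by_cases hD : D (Φ s (k z a)) (Φ s' (k z a')) ≤ 1 / C
    · have h4 : ‖Φ s (k z a) - lft (g z) z‖ ≤ 1 / C := by
        have h5 := (hT a 0 s 0 (ha.trans he1b) (by rw [norm_zero]; exact hρ2.le) (hs.trans he1b) (by rw [abs_zero]; exact hρ2.le)).2
        rw [h3.zero, hG.fl.zero, sub_zero, sub_zero] at h5
        refine h5.trans (le_trans ?_ he1d)
        exact mul_le_mul_of_nonneg_left (add_le_add ha hs) (by linarith)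
      have h5 := hG.d2 _ h1 _ _ h4 hD
      have h6 := (hT a a' s s' (ha.trans he1b) (ha'.trans he1b) (hs.trans he1b) (hs'.trans he1b)).1
      calc ‖a - a'‖ + |s - s'| ≤ M2 * ‖Φ s (k z a) - Φ s' (k z a')‖ := h6
        _ ≤ M2 * (C * D (Φ s (k z a)) (Φ s' (k z a'))) := mul_le_mul_of_nonneg_left h5 (by linarith)
        _ = (M2 * C) * D (Φ s (k z a)) (Φ s' (k z a')) := by ring
        _ ≤ C' * D (Φ s (k z a)) (Φ s' (k z a')) := mul_le_mul_of_nonneg_right hC'b hDn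
    · rw [not_le] at hD
      have h4 : ‖a - a'‖ ≤ e1 + e1 := (norm_sub_le a a').trans (add_le_add ha ha')
      have h5 : |s - s'| ≤ e1 + e1 := (abs_sub s s').trans (add_le_add hs hs')
      have h6 : 1 ≤ C * D (Φ s (k z a)) (Φ s' (k z a')) := by
        rw [div_lt_iff₀ (by linarith), mul_comm] at hD
        exact hD.le
      calc ‖a - a'‖ + |s - s'| ≤ 4 * 1 := by linarith
        _ ≤ 4 * (C * D (Φ s (k z a)) (Φ s' (k z a'))) := by linarith
        _ = (4 * C) * D (Φ s (k z a)) (Φ s' (k z a')) := by ring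
        _ ≤ C' * D (Φ s (k z a)) (Φ s' (k z a')) := mul_le_mul_of_nonneg_right hC'e hDn
  · intro z hz z' hz' t ht1 ht2 hd
    obtain ⟨h1, h2, h3⟩ := hk z hz
    obtain ⟨h1', h2', h3'⟩ := hk z' hz'
    have hMM : MM Φ (g z' * (g z)⁻¹) (t, lft (g z) z) = lft (g z') (Φ t z) := by
      show lft (g z' * (g z)⁻¹) (Φ t (lft (g z) z)) = lft (g z') (Φ t z)
      rw [hG.lf, hG.lm, li]
    have h4 : D (lft (g z') z') (lft (g z') (Φ t z)) = D (Φ t z) z' := by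
      rw [hG.di, (hG.d0 z' (Φ t z)).2.2]
    have h5 := hG.d2 _ h1' (lft (g z') z') (lft (g z') (Φ t z)) (by rw [sub_self, norm_zero]; positivity) (by rw [h4]; exact hd.trans he0b)
    rw [h4, norm_sub_rev, ← hMM] at h5
    have h6 : C * D (Φ t z) z' ≤ C * e0 := mul_le_mul_of_nonneg_left hd (by linarith)
    have hj3 : ‖MM Φ (g z' * (g z)⁻¹) (t, lft (g z) z) - lft (g z') z'‖ ≤ ρ3 := h5.trans (h6.trans he0d)
    have hj4 : ‖MM Φ (g z' * (g z)⁻¹) (t, lft (g z) z) - lft (g z') z'‖ ≤ ρ4 := h5.trans (h6.trans he0e)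
    obtain ⟨F, τ, hF⟩ := hPR Γ K G Φ D hG _ h1 _ h1' _ _ _ _ h2 h2' h3 h3' (g z' * (g z)⁻¹) t ht1 ht2 hj3
    have hQ := hPQ Γ K G Φ D hG _ h1 _ h1' _ _ _ _ h2 h2' h3 h3' (g z' * (g z)⁻¹) t _ ht1 ht2 rfl hj4 F τ hF
    have hDn := (hG.d0 (Φ t z) z').1
    have hj : M3 * ‖MM Φ (g z' * (g z)⁻¹) (t, lft (g z) z) - lft (g z') z'‖ ≤ C' * D (Φ t z) z' := by
      calc M3 * ‖MM Φ (g z' * (g z)⁻¹) (t, lft (g z) z) - lft (g z') z'‖ ≤ M3 * (C * D (Φ t z) z') := mul_le_mul_of_nonneg_left h5 (by linarith)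
        _ = (M3 * C) * D (Φ t z) z' := by ring
        _ ≤ C' * D (Φ t z) z' := mul_le_mul_of_nonneg_right hC'c hDn
    have he0g : e0 ≤ ρ3 := he0f.trans hρ4'
    refine ⟨F, τ, SSE_hyp hSDT hM3 hC'd hF.cF he0g he0f hQ, hF.F0.trans hj, ?_, ?_⟩
    · intro a ha
      exact (hSDT m (fderiv ℝ F a) (hQ a (lt_of_lt_of_le ha he0f)).2).1
    · intro a ha
      obtain ⟨q1, q2, q3, q4⟩ := hF.eq a (ha.trans he0g)
      refine ⟨?_, ?_, ?_⟩
      · show Φ (τ a) (lft (g z)⁻¹ (k z a)) = lft (g z')⁻¹ (k z' (F a))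
        rw [q1]
        show Φ (τ a) (lft (g z)⁻¹ (k z a)) = lft (g z')⁻¹ (lft (g z' * (g z)⁻¹) (Φ (τ a) (k z a)))
        rw [hG.lm, li, hG.lf]
      · refine q2.trans ?_
        have h7 : 0 ≤ ‖a‖ ^ 2 := by positivity
        have h8 : M3 * ‖a‖ ^ 2 ≤ C' * ‖a‖ ^ 2 := mul_le_mul_of_nonneg_right (by linarith) h7
        rw [mul_add, mul_add]
        exact add_le_add h8 hj
      · intro b hb
        have hM3' : M3 ≤ C' := by linarith
        have h7 := (hSC1 (Z m) (Z m) (Z m) M3 ρ3 0 hM3 hρ3).1 F hF.cF a b (by rw [sub_zero]; exact ha.trans he0g) (by rw [sub_zero]; exact hb.trans he0g)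
        have h8 := (hSC1 (Z m) ℝ ℝ M3 ρ3 0 hM3 hρ3).1 τ hF.ct a b (by rw [sub_zero]; exact ha.trans he0g) (by rw [sub_zero]; exact hb.trans he0g)
        refine ⟨?_, h7.1.trans (mul_le_mul_of_nonneg_right hM3' (norm_nonneg _))⟩
        have h9 := h8.1
        rw [Real.norm_eq_abs] at h9
        exact h9.trans (mul_le_mul_of_nonneg_right hM3' (norm_nonneg _))

end

end Pool.Agent.VD
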