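import Pool.Agent.helper47.VD.SpecA1b

/-! Row AELD of project VD (MP_07c750_an): energy localisation. -/

set_option autoImplicit false

open scoped ContDiff Topology InnerProductSpace ComplexConjugate ENNReal
open MeasureTheory Filter Set

namespace Pool.Agent.VD

open Pool.Agent.VQ (CH)

noncomputable section

/-- the coefficients vanish if the base point is far away -/
theorem AELD_supp {d : ℕ} {Γ : Type} [Group Γ] [MulAction Γ (V d)] {G : V d → V d →L[ℝ] V d} {χ : V d → ℝ} {ch : ℝ → ℝ} {ζ R r0 : ℝ} {φ : V d → ℂ} {y : YS Γ d}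
    (h : ∀ (y : YS Γ d) (z : V d), Gp G χ ch ζ R y z ≠ 0 → ‖y.2.1‖ ≤ r0 - 1 ∧ ‖y.1⁻¹ • z - y.2.1‖ ≤ R ^ (-(1 / 2) + ζ) ∧ ‖y.1⁻¹ • z‖ ≤ r0)
    (hy : QF G χ ch ζ R φ y ≠ 0) : ‖y.2.1‖ ≤ r0 := by
  by_contra hcon
  apply hy
  unfold QF
  have h1 : ∀ z, φ z * conj (Gp G χ ch ζ R y z) = 0 := by
    intro z
    by_cases h2 : Gp G χ ch ζ R y z = 0
    · rw [h2, map_zero, mul_zero]
    · exact absurd ((h y z h2).1.trans (by linarith)) hcon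
  simp only [h1, integral_zero]

theorem AELD_proof (h1 : AELA_stmt) (h2 : AEWT_stmt) (h3 : AQSA_stmt) (h4 : AQSB_stmt) (h5 : ADMD_stmt) : AELD_stmt := by
  intro d Γ _ _ K k B r0 χ ch ζ hK hPU hch hζ hζ'
  obtain ⟨R1, hR1, g1⟩ := h1 d Γ K k B r0 χ ch ζ hK hPU hch hζ hζ'
  obtain ⟨C, hC, g2⟩ := h2 d Γ K k B r0 hK
  obtain ⟨R3, hR3, g3⟩ := h3 d Γ K k B r0 χ ch ζ hK hPU hch hζ hζ'
  refine ⟨max (max R1 R3) (C ^ (1 / ζ)), hR1.trans ((le_max_left _ _).trans (le_max_left _ _)), ?_⟩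
  intro R G hR hG Λ F T hD φ E0 hφ hφ2 hE0
  have hRa : R1 ≤ R := ((le_max_left _ _).trans (le_max_left _ _)).trans hR
  have hRb : R3 ≤ R := ((le_max_right _ _).trans (le_max_left _ _)).trans hR
  have hRc : C ^ (1 / ζ) ≤ R := (le_max_right _ _).trans hR
  have hR1' : (1 : ℝ) ≤ R := hR1.trans hRa
  have hR0 : (0 : ℝ) < R := by linarith
  have hCR : C ≤ R ^ ζ := by
    have a1 : (C ^ (1 / ζ)) ^ ζ ≤ R ^ ζ := Real.rpow_le_rpow (Real.rpow_nonneg (by linarith) _) hRc hζ.le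
    rwa [← Real.rpow_mul (by linarith), one_div_mul_cancel hζ.ne', Real.rpow_one] at a1
  have hfirst := g1 R G hRa hG Λ F T hD φ E0 hφ hφ2
  refine ⟨hfirst, ?_⟩
  intro c hc
  obtain ⟨-, hsupp, -⟩ := g3 R G hRb hG
  obtain ⟨-, -, -, -, hGW, hDm⟩ := h5 d Γ K k B G hK hG
  have hmeas : MeasurableSet (DT d T \ GW Γ G r0 c R) := (hDm Λ F T hD).2.1.diff (hGW r0 c R).1
  have hpt : ∀ y ∈ DT d T \ GW Γ G r0 c R, ‖QF G χ ch ζ R φ y‖ₑ ^ 2 ≤ ENNReal.ofReal (C * R ^ (1 / 2 : ℝ)) *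
      (ENNReal.ofReal ((Ep G y.2 - E0) ^ 2 / (1 + ‖y.2.2‖ ^ 2) ^ 2) * ‖QF G χ ch ζ R φ y‖ₑ ^ 2) := by
    intro y hy
    by_cases hq : QF G χ ch ζ R φ y = 0
    · rw [hq]; simp
    · have hb : ‖y.2.1‖ ≤ r0 := AELD_supp hsupp hq
      have hE : c * R ^ (-(1 / 4) : ℝ) < |Ep G y.2| := by
        by_contra hcon
        exact hy.2 ⟨hb, not_lt.1 hcon⟩
      have hE2 : R ^ (-(1 / 4) : ℝ) / 16 ≤ |Ep G y.2 - E0| := by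
        have a1 := abs_sub_abs_le_abs_sub (Ep G y.2) E0
        linarith
      have a2 := g2 R G hR1' hG y.2.1 y.2.2 E0 hb hE0 hE2
      have a3 : 1 ≤ (C * R ^ (1 / 2 : ℝ)) * ((Ep G y.2 - E0) ^ 2 / (1 + ‖y.2.2‖ ^ 2) ^ 2) := by
        have a4 : R ^ (1 / 2 : ℝ) * R ^ (-(1 / 2) : ℝ) = 1 := by
          rw [← Real.rpow_add hR0]
          norm_num
        calc (1 : ℝ) = R ^ (1 / 2 : ℝ) * R ^ (-(1 / 2) : ℝ) := a4.symm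
          _ ≤ R ^ (1 / 2 : ℝ) * (C * ((Ep G (y.2.1, y.2.2) - E0) ^ 2 / (1 + ‖y.2.2‖ ^ 2) ^ 2)) := mul_le_mul_of_nonneg_left a2 (Real.rpow_nonneg hR0.le _)
          _ = _ := by ring
      have a5 : (1 : ℝ≥0∞) ≤ ENNReal.ofReal (C * R ^ (1 / 2 : ℝ)) * ENNReal.ofReal ((Ep G y.2 - E0) ^ 2 / (1 + ‖y.2.2‖ ^ 2) ^ 2) := by
        rw [← ENNReal.ofReal_mul (mul_nonneg (by linarith) (Real.rpow_nonneg hR0.le _)), ← ENNReal.ofReal_one]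
        exact ENNReal.ofReal_le_ofReal a3
      calc ‖QF G χ ch ζ R φ y‖ₑ ^ 2 = 1 * ‖QF G χ ch ζ R φ y‖ₑ ^ 2 := (one_mul _).symm
        _ ≤ ENNReal.ofReal (C * R ^ (1 / 2 : ℝ)) * ENNReal.ofReal ((Ep G y.2 - E0) ^ 2 / (1 + ‖y.2.2‖ ^ 2) ^ 2) * ‖QF G χ ch ζ R φ y‖ₑ ^ 2 := by gcongr
        _ = _ := mul_assoc _ _ _
  have hnn : ∀ φ : V d → ℂ, 0 ≤ nn G F φ := fun φ => integral_nonneg (fun z => by positivity)
  have hX : 0 ≤ R ^ (-4 : ℝ) * nn G F (fun z => lap G φ z + ((R ^ 2 * (1 + 2 * E0) : ℝ) : ℂ) * φ z) + R ^ (-1 : ℝ) * nn G F φ :=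
    add_nonneg (mul_nonneg (Real.rpow_nonneg hR0.le _) (hnn _)) (mul_nonneg (Real.rpow_nonneg hR0.le _) (hnn _))
  calc ∫⁻ y in DT d T \ GW Γ G r0 c R, ‖QF G χ ch ζ R φ y‖ₑ ^ 2 ∂mY Γ d
      ≤ ∫⁻ y in DT d T \ GW Γ G r0 c R, ENNReal.ofReal (C * R ^ (1 / 2 : ℝ)) *
      (ENNReal.ofReal ((Ep G y.2 - E0) ^ 2 / (1 + ‖y.2.2‖ ^ 2) ^ 2) * ‖QF G χ ch ζ R φ y‖ₑ ^ 2) ∂mY Γ d := setLIntegral_mono' hmeas hpt
    _ ≤ ∫⁻ y in DT d T, ENNReal.ofReal (C * R ^ (1 / 2 : ℝ)) *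
      (ENNReal.ofReal ((Ep G y.2 - E0) ^ 2 / (1 + ‖y.2.2‖ ^ 2) ^ 2) * ‖QF G χ ch ζ R φ y‖ₑ ^ 2) ∂mY Γ d := lintegral_mono_set sdiff_subset
    _ = ENNReal.ofReal (C * R ^ (1 / 2 : ℝ)) * ∫⁻ y in DT d T, ENNReal.ofReal ((Ep G y.2 - E0) ^ 2 / (1 + ‖y.2.2‖ ^ 2) ^ 2) * ‖QF G χ ch ζ R φ y‖ₑ ^ 2 ∂mY Γ d :=
        lintegral_const_mul' _ _ ENNReal.ofReal_ne_top
    _ ≤ ENNReal.ofReal (C * R ^ (1 / 2 : ℝ)) * ENNReal.ofReal (R ^ (8 * ζ) * (R ^ (-4 : ℝ) * nn G F (fun z => lap G φ z + ((R ^ 2 * (1 + 2 * E0) : ℝ) : ℂ) * φ z) + R ^ (-1 : ℝ) * nn G F φ)) := by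
        gcongr
    _ = ENNReal.ofReal ((C * R ^ (1 / 2 : ℝ)) * (R ^ (8 * ζ) * (R ^ (-4 : ℝ) * nn G F (fun z => lap G φ z + ((R ^ 2 * (1 + 2 * E0) : ℝ) : ℂ) * φ z) + R ^ (-1 : ℝ) * nn G F φ))) :=
        (ENNReal.ofReal_mul (mul_nonneg (by linarith) (Real.rpow_nonneg hR0.le _))).symm
    _ ≤ _ := by
        apply ENNReal.ofReal_le_ofReal
        have e1 : R ^ (1 / 2 + 9 * ζ) = R ^ ζ * R ^ (1 / 2 : ℝ) * R ^ (8 * ζ) := by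
          rw [← Real.rpow_add hR0, ← Real.rpow_add hR0]
          congr 1
          ring
        rw [e1]
        have e2 : C * R ^ (1 / 2 : ℝ) * R ^ (8 * ζ) ≤ R ^ ζ * R ^ (1 / 2 : ℝ) * R ^ (8 * ζ) :=
          mul_le_mul_of_nonneg_right (mul_le_mul_of_nonneg_right hCR (Real.rpow_nonneg hR0.le _)) (Real.rpow_nonneg hR0.le _)
        calc (C * R ^ (1 / 2 : ℝ)) * (R ^ (8 * ζ) * (R ^ (-4 : ℝ) * nn G F (fun z => lap G φ z + ((R ^ 2 * (1 + 2 * E0) : ℝ) : ℂ) * φ z) + R ^ (-1 : ℝ) * nn G F φ))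
            = (C * R ^ (1 / 2 : ℝ) * R ^ (8 * ζ)) * (R ^ (-4 : ℝ) * nn G F (fun z => lap G φ z + ((R ^ 2 * (1 + 2 * E0) : ℝ) : ℂ) * φ z) + R ^ (-1 : ℝ) * nn G F φ) := by ring
          _ ≤ _ := mul_le_mul_of_nonneg_right e2 hX

end

end Pool.Agent.VD
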