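import Pool.Agent.helper11.VD.Spec3e

/-! Row DTD of project VD (MP_07c750_an): the deterministic part. -/

set_option autoImplicit false

open scoped ContDiff Topology InnerProductSpace ENNReal ComplexConjugate
open MeasureTheory Filter Set

namespace Pool.Agent.VD

open Pool.Agent.RPQ (PN PJ UN upd IsOp nst)
open Pool.Agent.VQ (CH PS KZ perZ cmZ stZ wdZ InvS AdZ vz mZ wM qZ phZ rk)
open Pool.Agent.VN (aN)
open Pool.Agent.VDE (UWLD FDX)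

noncomputable section

theorem DTD_small (d ε : ℝ) (hd : 0 < d) (hε : 0 < ε) : ∃ R5 : ℝ, ∀ R : ℝ, R5 ≤ R → R ^ (-d) ≤ ε := by
  have h1 : Tendsto (fun R : ℝ => R ^ (-d)) atTop (𝓝 0) := tendsto_rpow_neg_atTop hd
  have h2 := h1.eventually (gt_mem_nhds hε)
  obtain ⟨R5, h3⟩ := eventually_atTop.1 h2
  exact ⟨R5, fun R hR => (h3 R hR).le⟩

/-- `Adm` is monotone -/
theorem DTD_adm {C C' : ℝ} {A : Par} (h : Adm C A) (h1 : 1 ≤ C') (h2 : C' ≤ C) : Adm C' A := by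
  have e2 := h.e2
  have hz := h.z
  have hz1 := h.z1
  have hz2 := h.z2
  have a1 : 0 < A.z1 := by nlinarith
  have a2 : 0 < A.z2 := by nlinarith
  refine ⟨e2, ?_, hz, ?_, ?_, ?_⟩
  · nlinarith [h.e2']
  · nlinarith
  · nlinarith
  · nlinarith [h.up]

/-- averages of functions with values in `[0, 1]` -/
theorem DTD_av {d : ℕ} {Φ : ℝ → P d → P d} {h : V d → ℝ} {t : ℝ} (ht : 0 < t) (hc : Continuous h) (hb : ∀ x, 0 ≤ h x ∧ h x ≤ 1)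
    (hΦ : Continuous fun q : ℝ × P d => Φ q.1 q.2) (p : P d) : 0 ≤ avP Φ h t p ∧ avP Φ h t p ≤ 1 := by
  have hcc : Continuous fun s : ℝ => h (Φ s p).1 := hc.comp (continuous_fst.comp (hΦ.comp (continuous_id.prodMk continuous_const)))
  unfold avP
  constructor
  · exact mul_nonneg (inv_nonneg.2 ht.le) (intervalIntegral.integral_nonneg ht.le fun s _ => (hb _).1)
  · have h1 : ∫ s in (0 : ℝ)..t, h (Φ s p).1 ≤ ∫ s in (0 : ℝ)..t, (1 : ℝ) :=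
      intervalIntegral.integral_mono_on ht.le (hcc.intervalIntegrable _ _) (continuous_const.intervalIntegrable _ _) fun s _ => (hb _).2
    rw [intervalIntegral.integral_const, smul_eq_mul, sub_zero, mul_one] at h1
    calc t⁻¹ * ∫ s in (0 : ℝ)..t, h (Φ s p).1 ≤ t⁻¹ * t := mul_le_mul_of_nonneg_left h1 (inv_nonneg.2 ht.le)
      _ = 1 := inv_mul_cancel₀ ht.ne'

/-- the kernel with the phase -/
theorem DTD_KB {d : ℕ} {Γ : Type} [Group Γ] [MulAction Γ (V d)] (G : V d → V d →L[ℝ] V d) (Φ : ℝ → P d → P d) (r0 : ℝ) (χ : V d → ℝ) (ch : ℝ → ℝ) (A : Par) (R : ℝ) (f : V d → ℝ) :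
    (KB (Γ := Γ) G Φ r0 χ ch A R f) = stZ (fun y : YS Γ d => -thP Φ f R (A.tu R) y.2) (ub G Φ r0 χ ch A R) := by
  funext y y'
  unfold KB stZ
  congr 2
  push_cast
  ring

theorem DTD_proof (hDTA : DTA_stmt) (hI2D : I2D_stmt) (hI3D : I3D_stmt) (hI4D : I4D_stmt) (hI8D : I8D_stmt) (hPSY : PSY_stmt) (hKZD : KZD_stmt)
    (hMTD : MTD_stmt) (hMVE : MVE_stmt) (hLEN : LEN_stmt) (hCTD : CTD_stmt) (hKSZ : VQ.KSZ_stmt) (hVLD : VLD_stmt) : DTD_stmt := by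
  intro d Γ _ _ K F0 r0 χ0 ch k B B' hd hK hF hPU hch
  obtain ⟨C2, hC2, hI2⟩ := hI2D d Γ K r0 χ0 ch k B B' hd hK hPU hch
  obtain ⟨C3, hC3, hI3⟩ := hI3D d Γ K F0 r0 χ0 ch k B B' hd hK hF hPU hch
  obtain ⟨C4, rS, hC4, hI4⟩ := hI4D d Γ K r0 χ0 ch k B hd hK hPU hch
  obtain ⟨C8, hC8, hI8⟩ := hI8D d Γ K F0 r0 χ0 ch k B B' hd hK hF hPU hch
  obtain ⟨CV, hCV, hV⟩ := hVLD d Γ K k B r0
  obtain ⟨C, hC1, hCC2, hCC3, hCC4, hCC8⟩ : ∃ C : ℝ, 1 ≤ C ∧ C2 ≤ C ∧ C3 ≤ C ∧ C4 ≤ C ∧ C8 ≤ C :=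
    ⟨C2 + C3 + C4 + C8, by linarith, by linarith, by linarith, by linarith, by linarith⟩
  have hcnt : Countable Γ := hCTD d Γ K hK
  obtain ⟨Ln, hL1, hL2, hL3, hL4⟩ := hLEN Γ hcnt
  refine ⟨C, hC1, fun A h e b L n hA hh he hb hL hn => ?_⟩
  obtain ⟨d2, R2, hd2, hR2, hI2⟩ := hI2 A (DTD_adm hA hC2 hCC2)
  obtain ⟨d3, R3, hd3, hR3, hI3⟩ := hI3 A (DTD_adm hA hC3 hCC3)
  obtain ⟨d4, R4, hd4, hR4, hI4⟩ := hI4 A (DTD_adm hA hC4 hCC4)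
  obtain ⟨d8, R8, hd8, hR8, hI8⟩ := hI8 A h (DTD_adm hA hC8 hCC8) hh
  obtain ⟨δD, hδD, hδD1, hDT⟩ := hDTA e b L n he hb hL hn
  obtain ⟨T2, hT2⟩ := DTD_small d2 δD hd2 hδD
  obtain ⟨T3, hT3⟩ := DTD_small d3 δD hd3 hδD
  obtain ⟨T8, hT8⟩ := DTD_small d8 δD hd8 hδD
  obtain ⟨R0, q0, q2, q3, q4, q8, t2, t3, t8⟩ : ∃ R0 : ℝ, 1 ≤ R0 ∧ R2 ≤ R0 ∧ R3 ≤ R0 ∧ R4 ≤ R0 ∧ R8 ≤ R0 ∧ T2 ≤ R0 ∧ T3 ≤ R0 ∧ T8 ≤ R0 := by
    refine ⟨1 + |R2| + |R3| + |R4| + |R8| + |T2| + |T3| + |T8|, ?_, ?_, ?_, ?_, ?_, ?_, ?_, ?_⟩ <;>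
    linarith [abs_nonneg R2, abs_nonneg R3, abs_nonneg R4, abs_nonneg R8, abs_nonneg T2, abs_nonneg T3, abs_nonneg T8,
      le_abs_self R2, le_abs_self R3, le_abs_self R4, le_abs_self R8, le_abs_self T2, le_abs_self T3, le_abs_self T8]
  refine ⟨δD, R0, hδD, q0, ?_⟩
  intro R G Φ f f' μ φ hR hG hflow hE hWd
  have hR1 : 1 ≤ R := q0.trans hR
  have hΦc : Continuous fun q : ℝ × P d => Φ q.1 q.2 := hflow.smooth.continuous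
  have hnn0 : 0 ≤ nn G F0 φ := integral_nonneg fun z => by positivity
  have htu : 0 < A.tu R := by
    unfold Par.tu
    positivity
  -- measurability
  obtain ⟨m1, -, -, mm, -, -, -, -, mW2⟩ := hMTD d Γ G Φ F0 f r0 R (A.tu R) e 2 hG.met hflow hE.sm.smooth.continuous
  obtain ⟨-, m2, -, -, m3, m4, m5, m6, -⟩ := hMTD d Γ G Φ F0 h r0 R (A.tu R) e 1 hG.met hflow hh.smooth.continuous
  have hWvol : volume {p : P d | ‖p.1‖ ≤ r0 ∧ |Ep G p| ≤ 2 * R ^ (-(1 / 4) : ℝ)} < ⊤ := lt_of_le_of_lt (hV G R hR1 hG) ENNReal.ofReal_lt_top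
  have hPS : PS Γ (YS Γ d) (mW Γ G r0 R) (DT d {(1 : Γ)}) (dYS Ln) :=
    (hPSY d Γ {p : P d | ‖p.1‖ ≤ r0 ∧ |Ep G p| ≤ 2 * R ^ (-(1 / 4) : ℝ)} Ln hcnt mW2 hWvol hL1 hL2 hL3 hL4).1
  have hθ : Measurable fun y : YS Γ d => -thP Φ f R (A.tu R) y.2 := (mm _ m1).neg
  have hKZ : KZ Γ (dYS Ln) (KB (Γ := Γ) G Φ r0 χ0 ch A R f) := by
    rw [DTD_KB]
    exact (hKSZ Γ (YS Γ d) (mW Γ G r0 R) (DT d {(1 : Γ)}) (dYS Ln) hPS).1 _ _ hθ (fun γ y => rfl) (hKZD d Γ Ln _ (hI4 R G Φ (q4.trans hR) hG hflow).1)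
  obtain ⟨i1, i2, i3, i4⟩ := hI3 R G Φ f f' μ φ (q3.trans hR) hG hflow hE
  have hmn := (hMVE d G hG.met).2.2.2.2 F0 h hF.meas hh.bd
  have hs3 := hT3 R (t3.trans hR)
  refine hDT Γ (YS Γ d) (mW Γ G r0 R) (DT d {(1 : Γ)}) (dYS Ln) hPS (KB G Φ r0 χ0 ch A R f) (QF G χ0 ch A.z R φ) (fun y => avP Φ h (A.tu R) y.2)
    (GW Γ G r0 1 R) (SBD Γ G Φ r0 F0 h e (A.tu R) R) (nn G F0 φ) (mean G F0 h) (∫ x in F0, h x * ‖φ x‖ ^ 2 ∂mv G)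
    hKZ i1 (mm _ m2) m3 (m4.inter m3) ?_ hnn0 hmn.1 hmn.2 (fun y => DTD_av htu hh.smooth.continuous hh.bd hΦc y.2) (fun y hy hye => ⟨hye, hy⟩) ?_ ?_ ?_ hWd ?_
  · intro γ y
    show (γ • y ∈ BadP Γ G Φ F0 h e (A.tu R) ∧ γ • y ∈ GW Γ G r0 1 R) ↔ (y ∈ BadP Γ G Φ F0 h e (A.tu R) ∧ y ∈ GW Γ G r0 1 R)
    rw [m6 γ y, m5 γ y]
  · refine i2.trans (ENNReal.ofReal_le_ofReal (mul_le_mul_of_nonneg_right (by linarith) hnn0))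
  · exact (ENNReal.ofReal_le_ofReal (mul_le_mul_of_nonneg_right (by linarith) hnn0)).trans i3
  · intro T hT
    refine ⟨?_, fun Ψ hΨ => ?_⟩
    · have := hI2 R G Φ f (q2.trans hR) hG hflow hE.sm T hT
      have := hT2 R (t2.trans hR)
      linarith
    · exact (i4 T hT Ψ hΨ).trans (mul_le_mul_of_nonneg_right hs3 hnn0)
  · exact (hI8 R G Φ f f' μ φ (q8.trans hR) hG hflow hE).trans (mul_le_mul_of_nonneg_right (hT8 R (t8.trans hR)) hnn0)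

end

end Pool.Agent.VD
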