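import Pool.Agent.helper55.VD.SpecE4

/-! Row EF8 of project VD (MP_07c750_an): the time averages. -/

set_option autoImplicit false

open scoped ContDiff Topology InnerProductSpace ComplexConjugate ENNReal
open MeasureTheory Filter Set

namespace Pool.Agent.VD

open Pool.Agent.VQ (CH KZ PS perZ cmZ)
open Pool.Agent.RPQ (IsOp)
open Pool.Agent.VDA (STP FB FR FT nY OY OA)

noncomputable section

/-- large `R` -/
theorem EF8_large : ∃ R1 : ℝ, 2 ≤ R1 ∧ ∀ R : ℝ, R1 ≤ R → 24 * Real.log R + 25 ≤ R ^ (1 / 1200 : ℝ) ∧ 2 ≤ R ^ (1 / 1050 : ℝ) ∧ R ^ (-(1 / 5) : ℝ) ≤ 1 / 2 := by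
  have h1 : Tendsto (fun R : ℝ => R ^ (1 / 1200 : ℝ)) atTop atTop := tendsto_rpow_atTop (by norm_num)
  have h2 : Tendsto (fun R : ℝ => R ^ (1 / 1050 : ℝ)) atTop atTop := tendsto_rpow_atTop (by norm_num)
  have h3 : Tendsto (fun R : ℝ => R ^ (-(1 / 5) : ℝ)) atTop (𝓝 0) := tendsto_rpow_neg_atTop (by norm_num)
  have h4 := (isLittleO_log_rpow_atTop (show (0 : ℝ) < 1 / 1200 by norm_num)).def (show (0 : ℝ) < 1 / 48 by norm_num)
  have h5 : ∀ᶠ R : ℝ in atTop, 24 * Real.log R + 25 ≤ R ^ (1 / 1200 : ℝ) := by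
    filter_upwards [h4, h1.eventually_ge_atTop 50, eventually_ge_atTop (1 : ℝ)] with R a1 a2 a3
    rw [Real.norm_eq_abs, Real.norm_eq_abs, abs_of_nonneg (Real.log_nonneg a3), abs_of_nonneg (Real.rpow_nonneg (by linarith) _)] at a1
    linarith
  have h6 : ∀ᶠ R : ℝ in atTop, 24 * Real.log R + 25 ≤ R ^ (1 / 1200 : ℝ) ∧ 2 ≤ R ^ (1 / 1050 : ℝ) ∧ R ^ (-(1 / 5) : ℝ) ≤ 1 / 2 := by
    filter_upwards [h5, h2.eventually_ge_atTop 2, h3.eventually_le_const (show (0 : ℝ) < 1 / 2 by norm_num)] with R a1 a2 a3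
    exact ⟨a1, a2, a3⟩
  obtain ⟨R1, hR1⟩ := eventually_atTop.1 h6
  exact ⟨max R1 2, le_max_right _ _, fun R hR => hR1 R ((le_max_left _ _).trans hR)⟩

theorem EF8_proof (hCTD : CTD_stmt) (hLEN : LEN_stmt) (hEST : EST_stmt) (hEAT : VDA.EAT_stmt) (hEEA : EEA_stmt) (hEO1 : EO1_stmt) (hEE2 : EE2_stmt)
    (hEEY : EEY_stmt) (hAUMD : AUMD_stmt) : EF8_stmt := by
  intro d Γ _ _ K k B r0 χ hK hPU
  obtain ⟨C1, hC1, h1⟩ := hEST d Γ K k B r0 χ hK hPU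
  obtain ⟨C2, hC2, h2⟩ := hEEA d Γ K k B r0 χ hK hPU
  obtain ⟨C3, hC3, h3⟩ := hEO1 d Γ K k B r0 χ hK hPU
  obtain ⟨C4, hC4, h4⟩ := hEE2 d Γ K k B r0 χ hK hPU
  obtain ⟨C5, hC5, h5⟩ := hEEY d Γ K k B r0 hK
  obtain ⟨C6, hC6, h6⟩ := hAUMD d Γ K k B r0 χ hK hPU
  have hcnt : Countable Γ := hCTD d Γ K hK
  obtain ⟨L, hL1, hL2, hL3, hL4⟩ := hLEN Γ hcnt
  have hLF : LF L := ⟨hL1, hL2, hL3, hL4⟩
  have m12 : C1 ≤ max (max (max C1 C2) (max C3 C4)) (max C5 C6) := (le_max_left _ _).trans ((le_max_left _ _).trans (le_max_left _ _))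
  have m2 : C2 ≤ max (max (max C1 C2) (max C3 C4)) (max C5 C6) := (le_max_right _ _).trans ((le_max_left _ _).trans (le_max_left _ _))
  have m3 : C3 ≤ max (max (max C1 C2) (max C3 C4)) (max C5 C6) := (le_max_left _ _).trans ((le_max_right _ _).trans (le_max_left _ _))
  have m4 : C4 ≤ max (max (max C1 C2) (max C3 C4)) (max C5 C6) := (le_max_right _ _).trans ((le_max_right _ _).trans (le_max_left _ _))
  have m5 : C5 ≤ max (max (max C1 C2) (max C3 C4)) (max C5 C6) := (le_max_left _ _).trans (le_max_right _ _)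
  have m6 : C6 ≤ max (max (max C1 C2) (max C3 C4)) (max C5 C6) := (le_max_right _ _).trans (le_max_right _ _)
  refine ⟨max (max (max C1 C2) (max C3 C4)) (max C5 C6), hC1.trans m12, ?_⟩
  intro ch A h hch hA hhi hhs hhb
  obtain ⟨R1, hR1, g1⟩ := h1 ch A hch (EAM0 hA hC1 m12)
  obtain ⟨R2, hR2, g2⟩ := h2 ch A h hch (EAM0 hA hC2 m2) hhi hhs hhb
  obtain ⟨R3, hR3, g3⟩ := h3 ch A hch (EAM0 hA hC3 m3)
  obtain ⟨R4, hR4, g4⟩ := h4 ch A hch (EAM0 hA hC4 m4)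
  obtain ⟨R5, hR5, g5⟩ := h5 A (EAM0 hA hC5 m5)
  obtain ⟨R6, hR6, g6⟩ := h6 ch A hch (EAM0 hA hC6 m6)
  obtain ⟨R7, hR7, g7⟩ := EF8_large
  have he2 : A.e2 ≤ 1 := by
    have a1 := (EAM0 hA hC1 m12).e2'
    have a2 := hA.e2
    nlinarith
  have n1 : R1 ≤ max (max (max R1 R2) (max R3 R4)) (max (max R5 R6) R7) := (le_max_left _ _).trans ((le_max_left _ _).trans (le_max_left _ _))
  have n2 : R2 ≤ max (max (max R1 R2) (max R3 R4)) (max (max R5 R6) R7) := (le_max_right _ _).trans ((le_max_left _ _).trans (le_max_left _ _))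
  have n3 : R3 ≤ max (max (max R1 R2) (max R3 R4)) (max (max R5 R6) R7) := (le_max_left _ _).trans ((le_max_right _ _).trans (le_max_left _ _))
  have n4 : R4 ≤ max (max (max R1 R2) (max R3 R4)) (max (max R5 R6) R7) := (le_max_right _ _).trans ((le_max_right _ _).trans (le_max_left _ _))
  have n5 : R5 ≤ max (max (max R1 R2) (max R3 R4)) (max (max R5 R6) R7) := (le_max_left _ _).trans ((le_max_left _ _).trans (le_max_right _ _))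
  have n6 : R6 ≤ max (max (max R1 R2) (max R3 R4)) (max (max R5 R6) R7) := (le_max_right _ _).trans ((le_max_left _ _).trans (le_max_right _ _))
  have n7 : R7 ≤ max (max (max R1 R2) (max R3 R4)) (max (max R5 R6) R7) := (le_max_right _ _).trans (le_max_right _ _)
  refine ⟨max (max (max R1 R2) (max R3 R4)) (max (max R5 R6) R7), hR1.trans n1, ?_⟩
  intro R F G Φ f u hR hF hO hAp
  obtain ⟨l1, l2, l3⟩ := g7 R (n7.trans hR)
  have hR2' : (2 : ℝ) ≤ R := hR7.trans (n7.trans hR)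
  have hR0 : (0 : ℝ) < R := by linarith
  have hRge : (1 : ℝ) ≤ R := by linarith
  obtain ⟨p1, p2, -, -, p5, p6, p7⟩ := g1 R F G Φ L (n1.trans hR) hF hO hLF
  obtain ⟨q1, q2, q3, q4⟩ := g2 R F G Φ f u (n2.trans hR) hF hO hAp
  have r1 := g3 R F G Φ f u (n3.trans hR) hF hO hAp
  obtain ⟨s1, -, s3, s4, s5⟩ := g4 R F G f u (n4.trans hR) hF hO.cls hAp
  obtain ⟨-, t2, -⟩ := g5 R G Φ f (n5.trans hR) hO hAp.sm
  obtain ⟨-, -, v3, -⟩ := g6 R G Φ (n6.trans hR) hO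
  have hnn : 0 ≤ nn G F u := integral_nonneg (fun z => by positivity)
  have hFB : FB Γ (QF (Γ := Γ) G χ ch A.z R u) := (p7 _).2 s1
  have hnY := p6 (QF (Γ := Γ) G χ ch A.z R u)
  have hY1 : nY (mW Γ G r0 R) (DT d {(1 : Γ)}) (QF (Γ := Γ) G χ ch A.z R u) ≤ 2 * nn G F u := by
    rw [hnY]
    refine s3.trans ?_
    have : 1 + R ^ (-(1 / 5) : ℝ) ≤ 2 := by linarith
    exact mul_le_mul_of_nonneg_right this hnn
  have hY2 : nn G F u ≤ 2 * nY (mW Γ G r0 R) (DT d {(1 : Γ)}) (QF (Γ := Γ) G χ ch A.z R u) := by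
    rw [hnY]
    have a1 : 1 / 2 * nn G F u ≤ (1 - R ^ (-(1 / 5) : ℝ)) * nn G F u := mul_le_mul_of_nonneg_right (by linarith) hnn
    have a2 := (a1.trans s4).trans s5
    linarith
  have hFT : FT Γ (fun y : YS Γ d => thP Φ f R 1 y.2) := ⟨t2 1, fun γ y => rfl⟩
  have hOY : (fun y : YS Γ d => OY (mW Γ G r0 R) (us G Φ r0 χ ch A R) (QF (Γ := Γ) G χ ch A.z R u) y -
      Complex.exp (((thP Φ f R 1 y.2 : ℝ) : ℂ) * Complex.I) * QF (Γ := Γ) G χ ch A.z R u y) = (fun y : YS Γ d => Op (us G Φ r0 χ ch A R) (QF (Γ := Γ) G χ ch A.z R u) y -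
      Complex.exp (((thP Φ f R 1 y.2 : ℝ) : ℂ) * Complex.I) * QF (Γ := Γ) G χ ch A.z R u y) := by
    funext y
    rw [p5 (us G Φ r0 χ ch A R) (QF (Γ := Γ) G χ ch A.z R u) y (fun y y' hy => (v3 y y' hy).1.2.1)]
  have hδ : (R ^ (-(1 / 150) : ℝ)) ^ 2 = R ^ (-(1 / 75) : ℝ) := by
    rw [← Real.rpow_natCast, ← Real.rpow_mul hR0.le]
    norm_num
  have hone : nY (mW Γ G r0 R) (DT d {(1 : Γ)}) (fun y : YS Γ d => OY (mW Γ G r0 R) (us G Φ r0 χ ch A R) (QF (Γ := Γ) G χ ch A.z R u) y -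
      Complex.exp (((thP Φ f R 1 y.2 : ℝ) : ℂ) * Complex.I) * QF (Γ := Γ) G χ ch A.z R u y) ≤ (R ^ (-(1 / 150) : ℝ)) ^ 2 * nY (mW Γ G r0 R) (DT d {(1 : Γ)}) (QF (Γ := Γ) G χ ch A.z R u) := by
    rw [hOY, p6, hδ]
    refine r1.trans ?_
    have a1 : 2 * R ^ (-(1 / 70) : ℝ) ≤ R ^ (-(1 / 75) : ℝ) := by
      have a2 : R ^ (-(1 / 75) : ℝ) = R ^ (1 / 1050 : ℝ) * R ^ (-(1 / 70) : ℝ) := by
        rw [← Real.rpow_add hR0]
        norm_num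
      rw [a2]
      exact mul_le_mul_of_nonneg_right l2 (Real.rpow_nonneg hR0.le _)
    have a3 : 0 ≤ nY (mW Γ G r0 R) (DT d {(1 : Γ)}) (QF (Γ := Γ) G χ ch A.z R u) := by linarith
    calc R ^ (-(1 / 70) : ℝ) * nn G F u ≤ R ^ (-(1 / 70) : ℝ) * (2 * nY (mW Γ G r0 R) (DT d {(1 : Γ)}) (QF (Γ := Γ) G χ ch A.z R u)) :=
          mul_le_mul_of_nonneg_left hY2 (Real.rpow_nonneg hR0.le _)
      _ = (2 * R ^ (-(1 / 70) : ℝ)) * nY (mW Γ G r0 R) (DT d {(1 : Γ)}) (QF (Γ := Γ) G χ ch A.z R u) := by ring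
      _ ≤ _ := mul_le_mul_of_nonneg_right a1 a3
  have hE := (hEAT Γ (YS Γ d) (mW Γ G r0 R) (DT d {(1 : Γ)}) (dYS L) p1 (us G Φ r0 χ ch A R) (R ^ (-(1 / 5) : ℝ)) (R ^ (1 / 200 : ℝ)) (R ^ (-(1 / 4) : ℝ)) (R ^ (-(1 / 150) : ℝ))
    (fun y => thP Φ f R 1 y.2) (QF (Γ := Γ) G χ ch A.z R u) (fun k y => gE Φ h k y.2) (A.n R + 1) p2 (Real.rpow_nonneg hR0.le _)
    (Real.rpow_le_rpow_of_exponent_le hRge (by norm_num)) (Real.rpow_le_one_of_one_le_of_nonpos hRge (by norm_num)) hFB hFT q2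
    (fun j hj y x hyx => q3 j y x hj (v3 y x hyx).1) hone).2 (by omega)
  -- the average
  have hav : (fun y : YS Γ d => (((A.n R + 1 : ℕ) : ℝ)⁻¹ * ∑ j ∈ Finset.range (A.n R + 1), gE Φ h j y.2) * ‖QF G χ ch A.z R u y‖ ^ 2) = fun y : YS Γ d => avP Φ h (A.tu R) y.2 * ‖QF G χ ch A.z R u y‖ ^ 2 := by
    funext y
    rw [q1]
  rw [hav] at hE
  have hres : ∫ y in DT d {(1 : Γ)}, gE Φ h 0 y.2 * ‖QF G χ ch A.z R u y‖ ^ 2 ∂mW Γ G r0 R = ∫ y in DT d {(1 : Γ)} ∩ GW Γ G r0 2 R, gE Φ h 0 y.2 * ‖QF G χ ch A.z R u y‖ ^ 2 ∂mY Γ d := by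
    unfold mW
    rw [Measure.restrict_restrict p1.meas]
  rw [hres] at hE
  -- the numbers
  have hsq : Real.sqrt (R ^ (-(1 / 150) : ℝ)) = R ^ (-(1 / 300) : ℝ) := by
    rw [Real.sqrt_eq_rpow, ← Real.rpow_mul hR0.le]
    norm_num
  have hwb : R ^ (-(1 / 4) : ℝ) * R ^ (1 / 200 : ℝ) ≤ R ^ (-(1 / 300) : ℝ) := by
    rw [← Real.rpow_add hR0]
    exact Real.rpow_le_rpow_of_exponent_le hRge (by norm_num)
  have hn : ((A.n R + 1 : ℕ) : ℝ) ≤ Real.log R + 1 := by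
    have a1 : 0 ≤ Real.log R := Real.log_nonneg hRge
    have a2 : ((A.n R : ℕ) : ℝ) ≤ A.e2 * Real.log R := Nat.floor_le (mul_nonneg hA.e2.le a1)
    have a3 : A.e2 * Real.log R ≤ 1 * Real.log R := mul_le_mul_of_nonneg_right he2 a1
    push_cast
    linarith
  have hx : 0 ≤ R ^ (-(1 / 300) : ℝ) := Real.rpow_nonneg hR0.le _
  have hfin : R ^ (-(1 / 400) : ℝ) = R ^ (1 / 1200 : ℝ) * R ^ (-(1 / 300) : ℝ) := by
    rw [← Real.rpow_add hR0]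
    norm_num
  have hE2 : ((A.n R + 1 : ℕ) : ℝ) * ((R ^ (-(1 / 4) : ℝ) * R ^ (1 / 200 : ℝ) + 11 * Real.sqrt (R ^ (-(1 / 150) : ℝ))) * nY (mW Γ G r0 R) (DT d {(1 : Γ)}) (QF (Γ := Γ) G χ ch A.z R u)) ≤
      (Real.log R + 1) * (12 * R ^ (-(1 / 300) : ℝ) * (2 * nn G F u)) := by
    have a0 : 0 ≤ nY (mW Γ G r0 R) (DT d {(1 : Γ)}) (QF (Γ := Γ) G χ ch A.z R u) := by linarith
    have a1 : R ^ (-(1 / 4) : ℝ) * R ^ (1 / 200 : ℝ) + 11 * Real.sqrt (R ^ (-(1 / 150) : ℝ)) ≤ 12 * R ^ (-(1 / 300) : ℝ) := by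
      rw [hsq]; linarith
    have a2 : (R ^ (-(1 / 4) : ℝ) * R ^ (1 / 200 : ℝ) + 11 * Real.sqrt (R ^ (-(1 / 150) : ℝ))) * nY (mW Γ G r0 R) (DT d {(1 : Γ)}) (QF (Γ := Γ) G χ ch A.z R u) ≤
        12 * R ^ (-(1 / 300) : ℝ) * (2 * nn G F u) := mul_le_mul a1 hY1 a0 (by positivity)
    exact mul_le_mul hn a2 (mul_nonneg (by positivity) a0) (by linarith [Real.log_nonneg hRge])
  have hE3 := (abs_sub_le _ _ _).trans (add_le_add (hE.trans hE2) q4)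
  refine hE3.trans ?_
  rw [hfin]
  have hlast : (24 * Real.log R + 25) * (R ^ (-(1 / 300) : ℝ) * nn G F u) ≤ R ^ (1 / 1200 : ℝ) * (R ^ (-(1 / 300) : ℝ) * nn G F u) :=
    mul_le_mul_of_nonneg_right l1 (mul_nonneg hx hnn)
  have e1 : (Real.log R + 1) * (12 * R ^ (-(1 / 300) : ℝ) * (2 * nn G F u)) + R ^ (-(1 / 300) : ℝ) * nn G F u = (24 * Real.log R + 25) * (R ^ (-(1 / 300) : ℝ) * nn G F u) := by ring
  rw [e1, mul_assoc]
  exact hlast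

end

end Pool.Agent.VD
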