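import Pool.Agent.helper55.VD.SpecE3

/-! Row EYP of project VD (MP_07c750_an): integrals over the fundamental domain `{1} × P`. -/

set_option autoImplicit false

open scoped ContDiff Topology InnerProductSpace ComplexConjugate ENNReal
open MeasureTheory Filter Set

namespace Pool.Agent.VD

open Pool.Agent.VQ (CH KZ PS perZ cmZ)
open Pool.Agent.RPQ (IsOp)

noncomputable section

theorem EYP_gen {Γ X : Type} [MeasurableSpace Γ] [MeasurableSingletonClass Γ] [Countable Γ] [MeasurableSpace X] (ν : Measure X) [SFinite ν] (γ : Γ) :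
    ((Measure.count : Measure Γ).prod ν).restrict ({γ} ×ˢ univ) = ν.map (Prod.mk γ) := by
  rw [← Measure.prod_restrict, Measure.restrict_singleton, Measure.count_singleton, one_smul, Measure.restrict_univ, Measure.dirac_prod]

theorem EYP_gen2 {Γ X : Type} [MeasurableSpace Γ] [MeasurableSingletonClass Γ] [Countable Γ] [MeasurableSpace X] (ν : Measure X) [SFinite ν] (γ : Γ) (S : Set (Γ × X)) (hS : MeasurableSet S) :
    ((Measure.count : Measure Γ).prod ν).restrict ({y : Γ × X | y.1 ∈ ({γ} : Set Γ)} ∩ S) = (ν.restrict (Prod.mk γ ⁻¹' S)).map (Prod.mk γ) := by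
  have h1 : ({y : Γ × X | y.1 ∈ ({γ} : Set Γ)} : Set (Γ × X)) = {γ} ×ˢ univ := by
    ext y
    simp
  rw [h1, inter_comm, ← Measure.restrict_restrict hS, EYP_gen, (measurableEmbedding_prodMk_left γ).restrict_map]

theorem EYP_int {Γ X : Type} [MeasurableSpace Γ] [MeasurableSingletonClass Γ] [Countable Γ] [MeasurableSpace X] (ν : Measure X) [SFinite ν] (γ : Γ) (S : Set (Γ × X)) (hS : MeasurableSet S)
    (g : Γ × X → ℝ) : ∫ y in {y : Γ × X | y.1 ∈ ({γ} : Set Γ)} ∩ S, g y ∂((Measure.count : Measure Γ).prod ν) = ∫ x in Prod.mk γ ⁻¹' S, g (γ, x) ∂ν := by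
  rw [EYP_gen2 ν γ S hS, (measurableEmbedding_prodMk_left γ).integral_map]

theorem EYP_lint {Γ X : Type} [MeasurableSpace Γ] [MeasurableSingletonClass Γ] [Countable Γ] [MeasurableSpace X] (ν : Measure X) [SFinite ν] (γ : Γ) (S : Set (Γ × X)) (hS : MeasurableSet S)
    (g : Γ × X → ℝ≥0∞) : ∫⁻ y in {y : Γ × X | y.1 ∈ ({γ} : Set Γ)} ∩ S, g y ∂((Measure.count : Measure Γ).prod ν) = ∫⁻ x in Prod.mk γ ⁻¹' S, g (γ, x) ∂ν := by
  rw [EYP_gen2 ν γ S hS, (measurableEmbedding_prodMk_left γ).lintegral_map]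

/-- the Hamiltonian is continuous -/
theorem EYP_ham {d : ℕ} {G : V d → V d →L[ℝ] V d} (h : Continuous (fun x => (G x).inverse)) : Continuous (Ham G) := by
  have h1 : Continuous (fun p : P d => (G p.1).inverse p.2) := (h.comp continuous_fst).clm_apply continuous_snd
  exact (h1.inner continuous_snd).div_const 2

/-- lower bound for the inverse metric -/
theorem EYP_low {d : ℕ} {G : V d → V d →L[ℝ] V d} (h : Continuous (fun x => (G x).inverse)) (hp : ∀ x u, u ≠ 0 → 0 < ⟪(G x).inverse u, u⟫_ℝ) (r : ℝ) :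
    ∃ c : ℝ, 0 < c ∧ ∀ x : V d, ‖x‖ ≤ r → ∀ u : V d, c * ‖u‖ ^ 2 ≤ ⟪(G x).inverse u, u⟫_ℝ := by
  have hc : Continuous (fun p : P d => ⟪(G p.1).inverse p.2, p.2⟫_ℝ) := ((h.comp continuous_fst).clm_apply continuous_snd).inner continuous_snd
  have hK : IsCompact (Metric.closedBall (0 : V d) r ×ˢ Metric.sphere (0 : V d) 1) := (isCompact_closedBall _ _).prod (isCompact_sphere _ _)
  have key : ∃ c : ℝ, 0 < c ∧ ∀ p ∈ Metric.closedBall (0 : V d) r ×ˢ Metric.sphere (0 : V d) 1, c ≤ ⟪(G p.1).inverse p.2, p.2⟫_ℝ := by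
    rcases (Metric.closedBall (0 : V d) r ×ˢ Metric.sphere (0 : V d) 1).eq_empty_or_nonempty with he | hne
    · refine ⟨1, one_pos, fun p hp' => ?_⟩
      rw [he] at hp'
      exact absurd hp' (notMem_empty p)
    · obtain ⟨p0, hp0, hmin⟩ := hK.exists_isMinOn hne hc.continuousOn
      refine ⟨_, hp p0.1 p0.2 ?_, fun p hp' => hmin hp'⟩
      intro h0
      have h1 := hp0.2
      rw [mem_sphere_zero_iff_norm, h0, norm_zero] at h1
      exact zero_ne_one h1
  obtain ⟨c, hc0, hcl⟩ := key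
  refine ⟨c, hc0, fun x hx u => ?_⟩
  by_cases hu : u = 0
  · rw [hu]; simp
  · have hn : 0 < ‖u‖ := norm_pos_iff.2 hu
    have h1 := hcl (x, ‖u‖⁻¹ • u) ⟨mem_closedBall_zero_iff.2 hx, by
      rw [mem_sphere_zero_iff_norm, norm_smul, norm_inv, norm_norm, inv_mul_cancel₀ hn.ne']⟩
    simp only at h1
    rw [map_smul, inner_smul_left, inner_smul_right, RCLike.conj_to_real] at h1
    have h2 : ‖u‖⁻¹ * (‖u‖⁻¹ * ⟪(G x).inverse u, u⟫_ℝ) * ‖u‖ ^ 2 = ⟪(G x).inverse u, u⟫_ℝ := by
      field_simp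
    rw [← h2]
    exact mul_le_mul_of_nonneg_right h1 (by positivity)

theorem EYP_proof (hEHD : EHD_stmt) : EYP_stmt := by
  intro d Γ _ _ G r0 c R hG
  obtain ⟨_, _, hinv, _, _, hpos, _⟩ := hEHD d G hG
  have hinv' : Continuous (fun x => (G x).inverse) := hinv.continuous
  have hHam : Continuous (Ham G) := EYP_ham hinv'
  have hEp : Continuous (fun p : P d => |Ep G p|) := (hHam.sub continuous_const).abs
  have hWPc : IsClosed (WP G r0 c R) :=
    (isClosed_le continuous_fst.norm continuous_const).inter (isClosed_le hEp continuous_const)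
  have hWP : MeasurableSet (WP G r0 c R) := hWPc.measurableSet
  letI : MeasurableSpace Γ := ⊤
  haveI : MeasurableSingletonClass Γ := ⟨fun _ => trivial⟩
  have hsnd : Measurable (fun y : YS Γ d => y.2) := @measurable_snd Γ (P d) ⊤ _
  have hGW : MeasurableSet (GW Γ G r0 c R) := hsnd hWP
  have hSF : SigmaFinite (mY Γ d) := by
    show SigmaFinite ((Measure.count : Measure Γ).prod (volume : Measure (P d)))
    infer_instance
  refine ⟨hWP, hGW, hSF, ?_, ?_, ?_, ?_⟩
  · exact measurableEmbedding_prodMk_left (β := P d) (1 : Γ)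
  · intro g
    exact EYP_int (volume : Measure (P d)) (1 : Γ) (GW Γ G r0 c R) hGW g
  · intro g
    exact EYP_lint (volume : Measure (P d)) (1 : Γ) (GW Γ G r0 c R) hGW g
  · obtain ⟨c0, hc0, hlow⟩ := EYP_low hinv' hpos r0
    have hsub : WP G r0 c R ⊆ Metric.closedBall (0 : V d) r0 ×ˢ Metric.closedBall (0 : V d) (Real.sqrt (2 * (c * R ^ (-(1 / 4) : ℝ) + 1 / 2) / c0)) := by
      rintro p ⟨hp1, hp2⟩
      refine ⟨mem_closedBall_zero_iff.2 hp1, mem_closedBall_zero_iff.2 ?_⟩
      have h1 := hlow p.1 hp1 p.2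
      have h2 := (abs_le.1 hp2).2
      have h3 : ⟪(G p.1).inverse p.2, p.2⟫_ℝ = 2 * (Ep G p + 1 / 2) := by
        unfold Ep Ham IG
        ring
      apply Real.le_sqrt_of_sq_le
      rw [le_div_iff₀ hc0]
      rw [h3] at h1
      linarith
    exact lt_of_le_of_lt (measure_mono hsub) ((isCompact_closedBall _ _).prod (isCompact_closedBall _ _)).measure_lt_top

end

end Pool.Agent.VD
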