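import Pool.Agent.helper84.VD.SpecB3

set_option autoImplicit false

open scoped ContDiff Topology InnerProductSpace ENNReal
open MeasureTheory Filter Set

namespace Pool.Agent.VD

noncomputable section

/-- the elementary inequalities for large `R` -/
theorem RGD_large (C Cs e2 K' z2 a : ℝ) (N : ℕ) (hC : 1 ≤ C) (hCs : 1 ≤ Cs) (he2 : 0 < e2) (hK' : 1 ≤ K') (hz : 0 < z2) (hz' : z2 ≤ 1 / 10) (ha : 0 < a) (ha' : C * a ≤ 1 / 10) :
    ∃ R1 : ℝ, 1 ≤ R1 ∧ ∀ R : ℝ, R1 ≤ R → K' * Cs * ((N : ℝ) * (Real.log R + 1) + 1) ^ 2 ≤ R ^ z2 ∧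
      ∀ l : ℕ, (l : ℝ) ≤ a * Real.log R → 2 * ((l : ℝ) * (C * Real.exp (C * l)) * (Cs * R ^ (-(1 / 2) + z2))) ≤ e2 / 2 := by
  obtain ⟨Q, hQ⟩ : ∃ Q : ℝ, Q = (N : ℝ) * (4 / z2 + 1) + 1 := ⟨_, rfl⟩
  have hQ1 : 1 ≤ Q := by rw [hQ]; have : (0 : ℝ) ≤ (N : ℝ) * (4 / z2 + 1) := by positivity
                         linarith
  obtain ⟨T1, hT1⟩ : ∃ T1 : ℝ, T1 = (K' * Cs * Q ^ 2) ^ (2 / z2) := ⟨_, rfl⟩
  obtain ⟨T2, hT2⟩ : ∃ T2 : ℝ, T2 = (40 * C * Cs / e2) ^ (5 : ℝ) := ⟨_, rfl⟩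
  refine ⟨max 1 (max T1 T2), le_max_left _ _, fun R hR => ?_⟩
  have h1 : 1 ≤ R := (le_max_left _ _).trans hR
  have hRT1 : T1 ≤ R := ((le_max_left _ _).trans (le_max_right _ _)).trans hR
  have hRT2 : T2 ≤ R := ((le_max_right _ _).trans (le_max_right _ _)).trans hR
  have h0 : 0 < R := by linarith
  have hlog : 0 ≤ Real.log R := Real.log_nonneg h1
  constructor
  · have hl : Real.log R ≤ 4 / z2 * R ^ (z2 / 4) := by
      have := Real.log_le_rpow_div h0.le (ε := z2 / 4) (by positivity)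
      calc Real.log R ≤ R ^ (z2 / 4) / (z2 / 4) := this
        _ = 4 / z2 * R ^ (z2 / 4) := by field_simp
    have hR4 : 1 ≤ R ^ (z2 / 4) := Real.one_le_rpow h1 (by positivity)
    have h2 : (N : ℝ) * (Real.log R + 1) + 1 ≤ Q * R ^ (z2 / 4) := by
      have : (N : ℝ) * (Real.log R + 1) ≤ (N : ℝ) * (4 / z2 * R ^ (z2 / 4) + R ^ (z2 / 4)) := by
        apply mul_le_mul_of_nonneg_left _ (Nat.cast_nonneg N)
        linarith
      rw [hQ]
      nlinarith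
    have h3 : ((N : ℝ) * (Real.log R + 1) + 1) ^ 2 ≤ Q ^ 2 * R ^ (z2 / 2) := by
      have h4 : 0 ≤ (N : ℝ) * (Real.log R + 1) + 1 := by positivity
      calc ((N : ℝ) * (Real.log R + 1) + 1) ^ 2 ≤ (Q * R ^ (z2 / 4)) ^ 2 := pow_le_pow_left₀ h4 h2 2
        _ = Q ^ 2 * (R ^ (z2 / 4) * R ^ (z2 / 4)) := by ring
        _ = Q ^ 2 * R ^ (z2 / 2) := by rw [← Real.rpow_add h0]; congr 2; ring
    have h5 : K' * Cs * Q ^ 2 ≤ R ^ (z2 / 2) := by
      have hpos : 0 < K' * Cs * Q ^ 2 := by positivity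
      calc K' * Cs * Q ^ 2 = ((K' * Cs * Q ^ 2) ^ (2 / z2)) ^ (z2 / 2) := by
            rw [← Real.rpow_mul hpos.le]
            have : 2 / z2 * (z2 / 2) = 1 := by field_simp
            rw [this, Real.rpow_one]
        _ ≤ R ^ (z2 / 2) := by
            apply Real.rpow_le_rpow (by positivity) _ (by positivity)
            rw [← hT1]; exact hRT1
    calc K' * Cs * ((N : ℝ) * (Real.log R + 1) + 1) ^ 2 ≤ K' * Cs * (Q ^ 2 * R ^ (z2 / 2)) := by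
          apply mul_le_mul_of_nonneg_left h3 (by positivity)
      _ = (K' * Cs * Q ^ 2) * R ^ (z2 / 2) := by ring
      _ ≤ R ^ (z2 / 2) * R ^ (z2 / 2) := mul_le_mul_of_nonneg_right h5 (by positivity)
      _ = R ^ z2 := by rw [← Real.rpow_add h0]; congr 1; ring
  · intro l hl
    have hCa : a ≤ 1 / 10 := by nlinarith
    have hl2 : (l : ℝ) ≤ R ^ (1 / 10 : ℝ) := by
      have := Real.log_le_rpow_div h0.le (ε := 1 / 10) (by norm_num)
      calc (l : ℝ) ≤ a * Real.log R := hl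
        _ ≤ 1 / 10 * (R ^ (1 / 10 : ℝ) / (1 / 10)) := by
            apply mul_le_mul hCa this hlog (by norm_num)
        _ = R ^ (1 / 10 : ℝ) := by ring
    have he : Real.exp (C * l) ≤ R ^ (1 / 10 : ℝ) := by
      rw [Real.rpow_def_of_pos h0]
      apply Real.exp_le_exp.mpr
      calc C * l ≤ C * (a * Real.log R) := mul_le_mul_of_nonneg_left hl (by linarith)
        _ = (C * a) * Real.log R := by ring
        _ ≤ 1 / 10 * Real.log R := mul_le_mul_of_nonneg_right ha' hlog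
        _ = Real.log R * (1 / 10) := by ring
    have hz3 : R ^ (-(1 / 2) + z2) ≤ R ^ (-(4 / 10) : ℝ) := Real.rpow_le_rpow_of_exponent_le h1 (by linarith)
    have h6 : 2 * ((l : ℝ) * (C * Real.exp (C * l)) * (Cs * R ^ (-(1 / 2) + z2))) ≤ 2 * (R ^ (1 / 10 : ℝ) * (C * R ^ (1 / 10 : ℝ)) * (Cs * R ^ (-(4 / 10) : ℝ))) := by
      gcongr
    have h7 : 2 * (R ^ (1 / 10 : ℝ) * (C * R ^ (1 / 10 : ℝ)) * (Cs * R ^ (-(4 / 10) : ℝ))) = 2 * C * Cs * R ^ (-(1 / 5) : ℝ) := by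
      have : R ^ (-(1 / 5) : ℝ) = R ^ (1 / 10 : ℝ) * R ^ (1 / 10 : ℝ) * R ^ (-(4 / 10) : ℝ) := by
        rw [← Real.rpow_add h0, ← Real.rpow_add h0]; congr 1; norm_num
      rw [this]; ring
    have h8 : 40 * C * Cs / e2 ≤ R ^ (1 / 5 : ℝ) := by
      have hpos : 0 < 40 * C * Cs / e2 := by positivity
      calc 40 * C * Cs / e2 = ((40 * C * Cs / e2) ^ (5 : ℝ)) ^ (1 / 5 : ℝ) := by
            rw [← Real.rpow_mul hpos.le]; norm_num
        _ ≤ R ^ (1 / 5 : ℝ) := by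
            apply Real.rpow_le_rpow (by positivity) _ (by norm_num)
            rw [← hT2]; exact hRT2
    have h9 : R ^ (-(1 / 5) : ℝ) * R ^ (1 / 5 : ℝ) = 1 := by
      rw [← Real.rpow_add h0]; norm_num
    have h10 : 0 < R ^ (-(1 / 5) : ℝ) := by positivity
    have h11 : R ^ (-(1 / 5) : ℝ) * (40 * C * Cs / e2) ≤ 1 := by
      calc R ^ (-(1 / 5) : ℝ) * (40 * C * Cs / e2) ≤ R ^ (-(1 / 5) : ℝ) * R ^ (1 / 5 : ℝ) := mul_le_mul_of_nonneg_left h8 h10.le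
        _ = 1 := h9
    have h12 : 40 * C * Cs * R ^ (-(1 / 5) : ℝ) ≤ e2 := by
      have : R ^ (-(1 / 5) : ℝ) * (40 * C * Cs / e2) * e2 ≤ 1 * e2 := mul_le_mul_of_nonneg_right h11 he2.le
      have h13 : R ^ (-(1 / 5) : ℝ) * (40 * C * Cs / e2) * e2 = 40 * C * Cs * R ^ (-(1 / 5) : ℝ) := by field_simp
      rw [h13, one_mul] at this
      exact this
    rw [h7] at h6
    nlinarith [mul_pos (mul_pos (show (0:ℝ) < C by linarith) (show (0:ℝ) < Cs by linarith)) h10]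

theorem RGD_proof (hSCL : SCL_stmt) (hRGB : RGB_stmt) (hCHB : CHB_stmt) (hSTU : STU_stmt) (hGWX : GWX_stmt) : RGD_stmt := by
  intro d Γ _ _ K r0 η k B hd hK hr0 hη
  obtain ⟨m, rfl⟩ : ∃ m, d = m + 1 := ⟨d - 1, by omega⟩
  obtain ⟨c, C, e0, e1, hc, hC, he0, he1, hS⟩ := hSCL m Γ K k B η hK hη
  obtain ⟨e2, K', he2, hK', hR⟩ := hRGB m c C e0 e1 hc hC he0 he1
  obtain ⟨Cs, R0s, hCs, hR0s, hT⟩ := hSTU (m + 1) Γ K r0 η k B hK hr0 hη
  refine ⟨10 * C, e2 / 2, by linarith, by positivity, fun A N hA hN => ?_⟩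
  have hz1pos : 0 < A.z1 := lt_of_lt_of_le (by have := hA.z; positivity) hA.z1
  have hz2pos : 0 < A.z2 := lt_of_lt_of_le (by positivity) hA.z2
  have hz2' : A.z2 ≤ 1 / 10 := by nlinarith [hA.up]
  have he2' : C * A.e2 ≤ 1 / 10 := by have := hA.e2'; linarith
  have he21 : A.e2 ≤ 1 := by nlinarith [hA.e2]
  obtain ⟨R1, hR1, hL⟩ := RGD_large C Cs e2 K' A.z2 A.e2 N hC hCs he2 hK' hz2pos hz2' hA.e2 he2'
  refine ⟨max R0s R1, hR0s.trans (le_max_left _ _), fun R G Φ hRR hCls hfl w w' hw hw' hw0 hwN hclose => ?_⟩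
  have hRs : R0s ≤ R := (le_max_left _ _).trans hRR
  have hRR1 : R1 ≤ R := (le_max_right _ _).trans hRR
  have h1 : 1 ≤ R := hR1.trans hRR1
  have h0 : 0 < R := by linarith
  have hlog : 0 ≤ Real.log R := Real.log_nonneg h1
  obtain ⟨hEFL, κ, hSEC⟩ := hS G Φ hCls hfl
  obtain ⟨hL1, hL2⟩ := hL R hRR1
  obtain ⟨x, hx, hxs⟩ := hCHB (m + 1) Γ G Φ r0 A R N w hw
  obtain ⟨x', hx', hxs'⟩ := hCHB (m + 1) Γ G Φ r0 A R N w' hw'
  have hr1 : A.r R ≤ 1 := Real.rpow_le_one_of_one_le_of_nonpos h1 (by linarith)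
  have hrn : 0 ≤ A.r R := Real.rpow_nonneg h0.le _
  have hst := fun i (hi : i < N * (A.n R + 1)) => hT (A.r R) R G Φ hRs hr1 hCls hfl (x i) (x (i + 1)) (hxs i hi)
  have hst' := fun i (hi : i < N * (A.n R + 1)) => hT (A.r R) R G Φ hRs hr1 hCls hfl (x' i) (x' (i + 1)) (hxs' i hi)
  obtain ⟨n1, hn1⟩ : ∃ n1 : ℕ, n1 = N * (A.n R + 1) := ⟨_, rfl⟩
  rw [← hn1] at hst hst'
  have hn1pos : 0 < n1 := by rw [hn1]; positivity
  have hnb : ∀ i ≤ n1, 3 / 4 ≤ nrm G (prY (x i)) ∧ nrm G (prY (x i)) ≤ 5 / 4 := by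
    intro i hi
    rcases Nat.lt_or_ge i n1 with h | h
    · obtain ⟨-, -, -, a1, a2, -, -⟩ := hst i h
      exact ⟨a1, a2⟩
    · obtain ⟨j, rfl⟩ : ∃ j, i = j + 1 := ⟨i - 1, by omega⟩
      obtain ⟨-, -, -, -, -, a1, a2⟩ := hst j (by omega)
      exact ⟨a1, a2⟩
  have hnb' : ∀ i ≤ n1, 3 / 4 ≤ nrm G (prY (x' i)) ∧ nrm G (prY (x' i)) ≤ 5 / 4 := by
    intro i hi
    rcases Nat.lt_or_ge i n1 with h | h
    · obtain ⟨-, -, -, a1, a2, -, -⟩ := hst' i h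
      exact ⟨a1, a2⟩
    · obtain ⟨j, rfl⟩ : ∃ j, i = j + 1 := ⟨i - 1, by omega⟩
      obtain ⟨-, -, -, -, -, a1, a2⟩ := hst' j (by omega)
      exact ⟨a1, a2⟩
  have hrr : 0 ≤ Cs * A.r R := by positivity
  have hG := hGWX (m + 1) C G Φ (dP Γ η) hEFL n1 (Cs * A.r R) (fun i => prY (x i)) hrr (fun i hi => (hnb i hi).2.trans (by norm_num)) (fun i hi => (hst i hi).1)
  have hG' := hGWX (m + 1) C G Φ (dP Γ η) hEFL n1 (Cs * A.r R) (fun i => prY (x' i)) hrr (fun i hi => (hnb' i hi).2.trans (by norm_num)) (fun i hi => (hst' i hi).1)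
  have htu : A.tu R = ((A.n R + 1 : ℕ) : ℝ) := by unfold Par.tu; push_cast; ring
  have hnR : ((A.n R : ℕ) : ℝ) ≤ A.e2 * Real.log R := Nat.floor_le (mul_nonneg hA.e2.le hlog)
  have hLpos : 0 < A.n R + 1 := Nat.succ_pos _
  have hends : x 0 = x' 0 := by
    have a1 := hx 0 (Nat.zero_le _)
    have a2 := hx' 0 (Nat.zero_le _)
    rw [Nat.zero_mul] at a1 a2
    rw [a1, a2, hw0]
  have hendN : x n1 = x' n1 := by
    rw [hn1, hx N le_rfl, hx' N le_rfl, hwN]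
  have hcl : ∀ i ≤ n1, dP Γ η (prY (x i)) (prY (x' i)) ≤ e2 := by
    intro i hi
    rcases Nat.lt_or_ge i n1 with h | h
    swap
    · have hin : i = n1 := le_antisymm hi h
      rw [hin, hendN, (hEFL.d0 (prY (x' n1)) (prY (x' n1))).2.1]
      exact he2.le
    · obtain ⟨j, hj⟩ : ∃ j, j = i / (A.n R + 1) := ⟨_, rfl⟩
      obtain ⟨l, hl⟩ : ∃ l, l = i % (A.n R + 1) := ⟨_, rfl⟩
      have hij : j * (A.n R + 1) + l = i := by rw [hj, hl]; exact Nat.div_add_mod' _ _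
      have hjN : j < N := by rw [hj]; exact Nat.div_lt_of_lt_mul (by rw [hn1, Nat.mul_comm] at h; exact h)
      have hlL : l < A.n R + 1 := by rw [hl]; exact Nat.mod_lt _ hLpos
      have hfl1 : ⌊(i : ℝ) / A.tu R⌋₊ = j := by
        rw [htu, hj]
        exact Nat.floor_div_eq_div (K := ℝ) i (A.n R + 1)
      have hsub : (i : ℝ) - (j : ℝ) * A.tu R = (l : ℝ) := by
        rw [htu, ← hij]; push_cast; ring
      have hfr : ∀ w : ℕ → YS Γ (m + 1), frD Φ (A.tu R) w (i : ℝ) = Φ (l : ℝ) (prY (w j)) := by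
        intro w
        unfold frD
        rw [hfl1, hsub]
      have hc1 := hclose (i : ℝ) (Nat.cast_nonneg _) (by
        rw [htu]
        have : ((N * (A.n R + 1) : ℕ) : ℝ) = (N : ℝ) * ((A.n R + 1 : ℕ) : ℝ) := by push_cast; ring
        rw [← this, ← hn1]
        exact_mod_cast h)
      rw [hfr, hfr] at hc1
      have g1 := hG (j * (A.n R + 1)) l (by omega)
      have g2 := hG' (j * (A.n R + 1)) l (by omega)
      simp only [hij] at g1 g2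
      rw [hx j hjN.le] at g1
      rw [hx' j hjN.le] at g2
      have hlR : (l : ℝ) ≤ A.e2 * Real.log R := by
        have : (l : ℝ) ≤ ((A.n R : ℕ) : ℝ) := by exact_mod_cast (by omega : l ≤ A.n R)
        exact this.trans hnR
      have g3 := hL2 l hlR
      have t1 := hEFL.dt (prY (x i)) (Φ (l : ℝ) (prY (w j))) (prY (x' i))
      have t2 := hEFL.dt (Φ (l : ℝ) (prY (w j))) (Φ (l : ℝ) (prY (w' j))) (prY (x' i))
      have t3 := (hEFL.d0 (prY (x i)) (Φ (l : ℝ) (prY (w j)))).2.2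
      have g4 : (l : ℝ) * (C * Real.exp (C * l)) * (Cs * A.r R) = (l : ℝ) * (C * Real.exp (C * l)) * (Cs * R ^ (-(1 / 2) + A.z2)) := rfl
      rw [g4] at g1 g2
      linarith
  have hn1R : (n1 : ℝ) + 1 ≤ (N : ℝ) * (Real.log R + 1) + 1 := by
    have : (n1 : ℝ) = (N : ℝ) * (((A.n R : ℕ) : ℝ) + 1) := by rw [hn1]; push_cast; ring
    rw [this]
    have h2 : ((A.n R : ℕ) : ℝ) ≤ Real.log R := hnR.trans (by nlinarith)
    have h3 : (N : ℝ) * (((A.n R : ℕ) : ℝ) + 1) ≤ (N : ℝ) * (Real.log R + 1) := mul_le_mul_of_nonneg_left (by linarith) (Nat.cast_nonneg N)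
    linarith
  have hn11 : 1 ≤ (n1 : ℝ) + 1 := by have : (0 : ℝ) ≤ (n1 : ℝ) := Nat.cast_nonneg _
                                     linarith
  have hmain : K' * ((n1 : ℝ) + 1) ^ 2 * (Cs * A.r R) ≤ R ^ (-(1 / 2) + 2 * A.z2) := by
    have h2 : ((n1 : ℝ) + 1) ^ 2 ≤ ((N : ℝ) * (Real.log R + 1) + 1) ^ 2 := pow_le_pow_left₀ (by linarith) hn1R 2
    calc K' * ((n1 : ℝ) + 1) ^ 2 * (Cs * A.r R) = (K' * Cs * ((n1 : ℝ) + 1) ^ 2) * A.r R := by ring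
      _ ≤ (K' * Cs * ((N : ℝ) * (Real.log R + 1) + 1) ^ 2) * A.r R := by gcongr
      _ ≤ R ^ A.z2 * A.r R := mul_le_mul_of_nonneg_right hL1 hrn
      _ = R ^ A.z2 * R ^ (-(1 / 2) + A.z2) := rfl
      _ = R ^ (-(1 / 2) + 2 * A.z2) := by rw [← Real.rpow_add h0]; congr 1; ring
  have hone : K' * ((n1 : ℝ) + 1) * (Cs * A.r R) ≤ 1 := by
    have h2 : (n1 : ℝ) + 1 ≤ ((n1 : ℝ) + 1) ^ 2 := by nlinarith
    calc K' * ((n1 : ℝ) + 1) * (Cs * A.r R) ≤ K' * ((n1 : ℝ) + 1) ^ 2 * (Cs * A.r R) := by gcongr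
      _ ≤ R ^ (-(1 / 2) + 2 * A.z2) := hmain
      _ ≤ 1 := Real.rpow_le_one_of_one_le_of_nonpos h1 (by linarith)
  have hfin := hR G Φ (dP Γ η) κ hEFL hSEC n1 (Cs * A.r R) (fun i => prY (x i)) (fun i => prY (x' i)) hrr hone
    (fun i hi => ⟨(hnb i hi).1, (hnb i hi).2, (hnb' i hi).1, (hnb' i hi).2, hcl i hi⟩)
    (fun i hi => ⟨(hst i hi).1, (hst' i hi).1⟩)
    (by simp only [hends]; rw [(hEFL.d0 (prY (x' 0)) (prY (x' 0))).2.1]; exact hrr)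
    (by simp only [hendN]; rw [(hEFL.d0 (prY (x' n1)) (prY (x' n1))).2.1]; exact hrr)
  intro j hj
  have h5 := hfin (j * (A.n R + 1)) (by rw [hn1]; exact Nat.mul_le_mul_right _ hj)
  simp only [hx j hj, hx' j hj] at h5
  refine h5.trans (hmain.trans ?_)
  apply Real.rpow_le_rpow_of_exponent_le h1
  nlinarith

end

end Pool.Agent.VD
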