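import Pool.Agent.helper84.VD.SpecB3

set_option autoImplicit false

open scoped ContDiff Topology InnerProductSpace ENNReal
open MeasureTheory Filter Set

namespace Pool.Agent.VD

noncomputable section

/-- the norm near a point of the shell -/
theorem SGM_nrm {d : ℕ} (G : V d → V d →L[ℝ] V d) (hI : ContDiff ℝ ∞ (IG G)) (m : ℕ) (C1 C2 C3 δ : ℝ) (hC1 : 1 ≤ C1) (hC2 : 0 ≤ C2) (hC3 : 0 ≤ C3)
    (h0 : ∀ x : V d, ‖x‖ ≤ m → ‖IG G x‖ ≤ C2) (h1 : ∀ x : V d, ‖x‖ ≤ m → ‖fderiv ℝ (IG G) x‖ ≤ C3) (hδ : δ ≤ 1) (hδ' : (C3 * (C1 + 1) ^ 2 + C2 * (2 * C1 + 1)) * δ ≤ 3)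
    (z p : P d) (hz : ‖z.1‖ ≤ m) (hp : ‖p.1‖ ≤ m) (hz2 : ‖z.2‖ ≤ C1) (hn : nrm G z = 1) (hpz : ‖p - z‖ ≤ δ) : nrm G p ≤ 2 := by
  have hδ0 : 0 ≤ δ := (norm_nonneg _).trans hpz
  have e1 : ‖p.1 - z.1‖ ≤ δ := (norm_fst_le (p - z)).trans hpz
  have e2 : ‖p.2 - z.2‖ ≤ δ := (norm_snd_le (p - z)).trans hpz
  have e3 : ‖p.2‖ ≤ C1 + 1 := by
    have : p.2 = z.2 + (p.2 - z.2) := by abel
    calc ‖p.2‖ = ‖z.2 + (p.2 - z.2)‖ := by rw [← this]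
      _ ≤ ‖z.2‖ + ‖p.2 - z.2‖ := norm_add_le _ _
      _ ≤ C1 + 1 := by linarith
  have e4 : ‖IG G p.1 - IG G z.1‖ ≤ C3 * δ := by
    have hcv : Convex ℝ (Metric.closedBall (0 : V d) m) := convex_closedBall _ _
    have := hcv.norm_image_sub_le_of_norm_fderiv_le (𝕜 := ℝ) (f := IG G) (C := C3) (fun x _ => (hI.differentiable (by simp)).differentiableAt) (fun x hx => h1 x (by simpa using hx))
      (x := z.1) (y := p.1) (by simpa using hz) (by simpa using hp)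
    exact this.trans (mul_le_mul_of_nonneg_left e1 hC3)
  have e5 : ⟪IG G p.1 p.2, p.2⟫_ℝ = ⟪IG G z.1 z.2, z.2⟫_ℝ + ⟪(IG G p.1 - IG G z.1) p.2, p.2⟫_ℝ + ⟪IG G z.1 (p.2 - z.2), p.2⟫_ℝ + ⟪IG G z.1 z.2, p.2 - z.2⟫_ℝ := by
    simp only [sub_apply, map_sub, inner_sub_left, inner_sub_right]
    ring
  have e6 : ⟪(IG G p.1 - IG G z.1) p.2, p.2⟫_ℝ ≤ C3 * δ * (C1 + 1) * (C1 + 1) := by
    calc ⟪(IG G p.1 - IG G z.1) p.2, p.2⟫_ℝ ≤ ‖(IG G p.1 - IG G z.1) p.2‖ * ‖p.2‖ := real_inner_le_norm _ _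
      _ ≤ (‖IG G p.1 - IG G z.1‖ * ‖p.2‖) * ‖p.2‖ := by gcongr; exact ContinuousLinearMap.le_opNorm _ _
      _ ≤ (C3 * δ * (C1 + 1)) * (C1 + 1) := by gcongr
  have e7 : ⟪IG G z.1 (p.2 - z.2), p.2⟫_ℝ ≤ C2 * δ * (C1 + 1) := by
    calc ⟪IG G z.1 (p.2 - z.2), p.2⟫_ℝ ≤ ‖IG G z.1 (p.2 - z.2)‖ * ‖p.2‖ := real_inner_le_norm _ _
      _ ≤ (‖IG G z.1‖ * ‖p.2 - z.2‖) * ‖p.2‖ := by gcongr; exact ContinuousLinearMap.le_opNorm _ _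
      _ ≤ (C2 * δ) * (C1 + 1) := by gcongr; exact h0 _ hz
  have e8 : ⟪IG G z.1 z.2, p.2 - z.2⟫_ℝ ≤ C2 * C1 * δ := by
    calc ⟪IG G z.1 z.2, p.2 - z.2⟫_ℝ ≤ ‖IG G z.1 z.2‖ * ‖p.2 - z.2‖ := real_inner_le_norm _ _
      _ ≤ (‖IG G z.1‖ * ‖z.2‖) * ‖p.2 - z.2‖ := by gcongr; exact ContinuousLinearMap.le_opNorm _ _
      _ ≤ (C2 * C1) * δ := by gcongr; exact h0 _ hz
  have e9 : ⟪IG G z.1 z.2, z.2⟫_ℝ = 1 := by
    have h9 : Real.sqrt ⟪IG G z.1 z.2, z.2⟫_ℝ = 1 := hn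
    exact Real.sqrt_eq_one.mp h9
  have e10 : ⟪IG G p.1 p.2, p.2⟫_ℝ ≤ 2 ^ 2 := by
    rw [e5, e9]
    nlinarith
  exact Real.sqrt_le_sqrt e10 |>.trans (by rw [Real.sqrt_sq (by norm_num)])

/-- chain rule bounds of order one and two -/
theorem SGM_comp {E F H : Type} [NormedAddCommGroup E] [NormedSpace ℝ E] [NormedAddCommGroup F] [NormedSpace ℝ F] [NormedAddCommGroup H] [NormedSpace ℝ H]
    (f : E → F) (g : F → H) (hf : ContDiff ℝ ∞ f) (hg : ContDiff ℝ ∞ g) (A : ℝ) (hA : 1 ≤ A) (S : Set E) (hS : Convex ℝ S)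
    (h1 : ∀ x ∈ S, ∀ i ≤ 2, ‖iteratedFDeriv ℝ i f x‖ ≤ A) (h2 : ∀ x ∈ S, ∀ i ≤ 2, ‖iteratedFDeriv ℝ i g (f x)‖ ≤ A) :
    ∀ x ∈ S, ∀ y ∈ S, ‖fderiv ℝ (g ∘ f) x‖ ≤ 2 * A * A ^ 2 ∧ ‖fderiv ℝ (g ∘ f) x - fderiv ℝ (g ∘ f) y‖ ≤ 2 * A * A ^ 2 * ‖x - y‖ := by
  have hA0 : 0 ≤ A := by linarith
  have hgf : ContDiff ℝ ∞ (g ∘ f) := hg.comp hf
  have key : ∀ x ∈ S, ∀ n : ℕ, n ≤ 2 → ‖iteratedFDeriv ℝ n (g ∘ f) x‖ ≤ (n.factorial : ℝ) * A * A ^ n := by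
    intro x hx n hn
    refine norm_iteratedFDeriv_comp_le hg hf (n := n) (by exact_mod_cast le_top) x (fun i hi => h2 x hx i (hi.trans hn)) (fun i hi hin => (h1 x hx i (hin.trans hn)).trans ?_)
    exact le_self_pow₀ hA (by omega)
  intro x hx y hy
  constructor
  · have := key x hx 1 (by norm_num)
    rw [norm_iteratedFDeriv_one] at this
    have h3 : A ^ 1 ≤ A ^ 2 := pow_le_pow_right₀ hA (by norm_num)
    have h4 : (Nat.factorial 1 : ℝ) = 1 := by norm_num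
    rw [h4] at this
    nlinarith
  · have hd : ∀ w ∈ S, ‖fderiv ℝ (fderiv ℝ (g ∘ f)) w‖ ≤ 2 * A * A ^ 2 := by
      intro w hw
      have := key w hw 2 le_rfl
      have h5 : ‖fderiv ℝ (fderiv ℝ (g ∘ f)) w‖ = ‖iteratedFDeriv ℝ 2 (g ∘ f) w‖ := by
        rw [← norm_iteratedFDeriv_one, norm_iteratedFDeriv_fderiv]
      rw [h5]
      have h4 : (Nat.factorial 2 : ℝ) = 2 := by norm_num [Nat.factorial]
      rw [h4] at this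
      exact this
    have hdf : Differentiable ℝ (fderiv ℝ (g ∘ f)) := (hgf.fderiv_right (m := ∞) (by simp)).differentiable (by simp)
    exact hS.norm_image_sub_le_of_norm_fderiv_le (𝕜 := ℝ) (fun w _ => hdf.differentiableAt) hd hy hx

theorem SGM_proof (hGIN : GIN_stmt) (hGNR : GNR_stmt) (hGUI : GUI_stmt) (hGCF : GCF_stmt) (hGJT : GJT_stmt) (hGLF : GLF_stmt) (hDLL : DLL_stmt) (hGJQ : GJQ_stmt) (hGQN : GQN_stmt) : SGM_stmt := by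
  intro d Γ _ _ K K' k B hK hK'
  by_cases hk : 0 < k
  swap
  · exact ⟨1, le_rfl, fun G Φ hC _ => absurd hC.kpos hk⟩
  obtain ⟨R, hR⟩ := hK'.isBounded.exists_norm_le
  obtain ⟨m0, hm0⟩ := exists_nat_ge R
  have hm0' : ∀ x ∈ K', ‖x‖ ≤ (m0 : ℝ) := fun x hx => (hR x hx).trans hm0
  obtain ⟨C1, hC1, hN⟩ := hGNR d B (m0 + 1)
  obtain ⟨C2, hI0⟩ := hGUI d B (m0 + 1) 0
  obtain ⟨C3, hI1⟩ := hGUI d B (m0 + 1) 1
  obtain ⟨m', hm', hF⟩ := hGCF d Γ K k B hK (m0 + 1) 4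
  obtain ⟨CJ, hJ⟩ := hGJT d Γ K k B hK (m0 + 1) 2 4
  obtain ⟨D0, hD0⟩ := hDLL d Γ K hK m' 0 m'
  obtain ⟨D1, hD1⟩ := hDLL d Γ K hK m' 1 m'
  obtain ⟨D2, hD2⟩ := hDLL d Γ K hK m' 2 m'
  obtain ⟨c, CQ, hc, hCQ, hQ⟩ := hGJQ d Γ K k B hK (m0 + 1) hk
  obtain ⟨A, hA⟩ : ∃ A : ℝ, A = 1 + |CJ| + |D0| + |D1| + |D2| := ⟨_, rfl⟩
  have hA1 : 1 ≤ A := by rw [hA]; linarith [abs_nonneg CJ, abs_nonneg D0, abs_nonneg D1, abs_nonneg D2]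
  have hACJ : CJ ≤ A := by rw [hA]; linarith [abs_nonneg CJ, abs_nonneg D0, abs_nonneg D1, abs_nonneg D2, le_abs_self CJ]
  have hAD0 : D0 ≤ A := by rw [hA]; linarith [abs_nonneg CJ, abs_nonneg D0, abs_nonneg D1, abs_nonneg D2, le_abs_self D0]
  have hAD1 : D1 ≤ A := by rw [hA]; linarith [abs_nonneg CJ, abs_nonneg D0, abs_nonneg D1, abs_nonneg D2, le_abs_self D1]
  have hAD2 : D2 ≤ A := by rw [hA]; linarith [abs_nonneg CJ, abs_nonneg D0, abs_nonneg D1, abs_nonneg D2, le_abs_self D2]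
  obtain ⟨L, hL⟩ : ∃ L : ℝ, L = |C3| * (C1 + 1) ^ 2 + |C2| * (2 * C1 + 1) := ⟨_, rfl⟩
  have hL0 : 0 ≤ L := by rw [hL]; positivity
  have hAA : 0 ≤ 2 * A * A ^ 2 := by positivity
  have hc0 : 0 ≤ 1 / c := by positivity
  obtain ⟨C, hCd⟩ : ∃ C : ℝ, C = 1 + L + 2 * A * A ^ 2 + 1 / c + CQ := ⟨_, rfl⟩
  have hC1' : 1 ≤ C := by rw [hCd]; linarith
  have hCL : L ≤ C := by rw [hCd]; linarith
  have hCA : 2 * A * A ^ 2 ≤ C := by rw [hCd]; linarith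
  have hCc : 1 / c ≤ C := by rw [hCd]; linarith
  have hCQ' : CQ ≤ C := by rw [hCd]; linarith
  have hCpos : 0 < C := by linarith
  have hδ1 : 1 / C ≤ 1 := by rw [div_le_one hCpos]; exact hC1'
  have hδL : L * (1 / C) ≤ 3 := by
    rw [mul_one_div, div_le_iff₀ hCpos]; linarith
  have hcC : 1 / C ≤ c := by
    rw [div_le_iff₀ hCpos]
    rw [div_le_iff₀ hc] at hCc
    linarith
  refine ⟨C, hC1', fun G Φ hCls hfl => ?_⟩
  have hlf := hGLF d Γ hK.smooth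
  have hcast : ((m0 + 1 : ℕ) : ℝ) = (m0 : ℝ) + 1 := by push_cast; ring
  -- points near the shell
  have near : ∀ z ∈ SK K' G, ∀ p : P d, ‖p - z‖ ≤ 1 / C → ‖p.1‖ ≤ ((m0 + 1 : ℕ) : ℝ) ∧ nrm G p ≤ 2 := by
    intro z hz p hp
    have hz1 : ‖z.1‖ ≤ (m0 : ℝ) := hm0' _ hz.1
    have hp1 : ‖p.1‖ ≤ ((m0 + 1 : ℕ) : ℝ) := by
      have e1 : ‖p.1 - z.1‖ ≤ 1 / C := (norm_fst_le (p - z)).trans hp
      have e2 : p.1 = z.1 + (p.1 - z.1) := by abel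
      calc ‖p.1‖ = ‖z.1 + (p.1 - z.1)‖ := by rw [← e2]
        _ ≤ ‖z.1‖ + ‖p.1 - z.1‖ := norm_add_le _ _
        _ ≤ _ := by rw [hcast]; linarith
    have hz1' : ‖z.1‖ ≤ ((m0 + 1 : ℕ) : ℝ) := by rw [hcast]; linarith
    have hz2 : ‖z.2‖ ≤ C1 := by
      have := (hN G hCls.met hCls.lo hCls.bd z hz1').1
      rwa [hz.2, mul_one] at this
    refine ⟨hp1, SGM_nrm G (hGIN d G hCls.met).2.2.2.1 (m0 + 1) C1 |C2| |C3| (1 / C) hC1 (abs_nonneg _) (abs_nonneg _) ?_ ?_ hδ1 ?_ z p hz1' hp1 hz2 hz.2 hp⟩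
    · intro x hx
      have := hI0 G hCls.met hCls.lo hCls.bd x hx
      rw [norm_iteratedFDeriv_zero] at this
      exact this.trans (le_abs_self _)
    · intro x hx
      have := hI1 G hCls.met hCls.lo hCls.bd x hx
      rw [norm_iteratedFDeriv_one] at this
      exact this.trans (le_abs_self _)
    · rw [← hL]; exact hδL
  refine ⟨?_, ?_⟩
  · intro γ z hz z' hz' t ht hd q q' hq hq'
    have hgl : ContDiff ℝ ∞ (lft γ : P d → P d) := hlf.2.2.1 γ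
    have hmem : ∀ x : ℝ × P d, x ∈ Metric.closedBall ((t, z) : ℝ × P d) (1 / C) → ‖x.2.1‖ ≤ ((m0 + 1 : ℕ) : ℝ) ∧ nrm G x.2 ≤ 2 ∧ |x.1| ≤ 4 := by
      intro x hx
      rw [mem_closedBall_iff_norm] at hx
      have e1 : ‖x.2 - z‖ ≤ 1 / C := (norm_snd_le (x - (t, z))).trans hx
      have e2 : ‖x.1 - t‖ ≤ 1 / C := (norm_fst_le (x - (t, z))).trans hx
      obtain ⟨e3, e4⟩ := near z hz x.2 e1
      refine ⟨e3, e4, ?_⟩
      have e5 : |x.1 - t| ≤ 1 / C := e2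
      have e6 : x.1 = t + (x.1 - t) := by ring
      calc |x.1| = |t + (x.1 - t)| := by rw [← e6]
        _ ≤ |t| + |x.1 - t| := abs_add_le _ _
        _ ≤ 4 := by linarith
    have hex : ∃ x : V d, ‖x‖ ≤ (m' : ℝ) ∧ ‖γ • x‖ ≤ (m' : ℝ) := by
      refine ⟨(Φ t z).1, ?_, ?_⟩
      · have hz1' : ‖z.1‖ ≤ ((m0 + 1 : ℕ) : ℝ) := by rw [hcast]; linarith [hm0' _ hz.1]
        exact (hF G Φ hCls hfl z t hz1' (by rw [hz.2]; norm_num) (by linarith)).1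
      · have e1 : ‖γ • (Φ t z).1 - z'.1‖ ≤ 1 / C := (norm_fst_le (MM Φ γ (t, z) - z')).trans hd
        have e2 : γ • (Φ t z).1 = z'.1 + (γ • (Φ t z).1 - z'.1) := by abel
        have e3 : ((m0 + 1 : ℕ) : ℝ) ≤ (m' : ℝ) := by exact_mod_cast hm'
        calc ‖γ • (Φ t z).1‖ = ‖z'.1 + (γ • (Φ t z).1 - z'.1)‖ := by rw [← e2]
          _ ≤ ‖z'.1‖ + ‖γ • (Φ t z).1 - z'.1‖ := norm_add_le _ _
          _ ≤ (m0 : ℝ) + 1 := by linarith [hm0' _ hz'.1]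
          _ ≤ (m' : ℝ) := by rw [← hcast]; exact e3
    have main := SGM_comp (fun q : ℝ × P d => Φ q.1 q.2) (lft γ : P d → P d) hfl.smooth hgl A hA1 (Metric.closedBall ((t, z) : ℝ × P d) (1 / C)) (convex_closedBall _ _)
      (fun x hx i hi => by
        obtain ⟨e1, e2, e3⟩ := hmem x hx
        exact (hJ G Φ hCls hfl x.2 x.1 e1 e2 e3 i hi).trans hACJ)
      (fun x hx i hi => by
        obtain ⟨e1, e2, e3⟩ := hmem x hx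
        obtain ⟨e4, e5⟩ := hF G Φ hCls hfl x.2 x.1 e1 e2 e3
        interval_cases i
        · exact ((hD0 γ hex).1 _ e4 e5).trans hAD0
        · exact ((hD1 γ hex).1 _ e4 e5).trans hAD1
        · exact ((hD2 γ hex).1 _ e4 e5).trans hAD2)
    have hq1 : q ∈ Metric.closedBall ((t, z) : ℝ × P d) (1 / C) := by rw [mem_closedBall_iff_norm]; exact hq
    have hq2 : q' ∈ Metric.closedBall ((t, z) : ℝ × P d) (1 / C) := by rw [mem_closedBall_iff_norm]; exact hq'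
    obtain ⟨r1, r2⟩ := main q hq1 q' hq2
    exact ⟨r1.trans hCA, r2.trans (mul_le_mul_of_nonneg_right hCA (norm_nonneg _))⟩
  · intro γ z hz t ht1 ht2 p v hp hpz hH
    obtain ⟨hp1, -⟩ := near z hz p hpz
    have h1 := hQ G Φ hCls hfl p v t hp1 hp hH ht1 ht2
    have h2 := hGQN d Γ G hCls.met hK.smooth hCls.isom γ (Φ t p) (fderiv ℝ (Φ t) p v)
    have hgl : ContDiff ℝ ∞ (lft γ : P d → P d) := hlf.2.2.1 γ
    have hfd : DifferentiableAt ℝ (fun q : ℝ × P d => Φ q.1 q.2) (t, p) := (hfl.smooth.differentiable (by simp)).differentiableAt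
    have h3 : fderiv ℝ (fun q : ℝ × P d => Φ q.1 q.2) (t, p) (0, v) = fderiv ℝ (Φ t) p v := by
      have e1 : HasFDerivAt (fun y : P d => ((t, y) : ℝ × P d)) (ContinuousLinearMap.inr ℝ ℝ (P d)) p := hasFDerivAt_prodMk_right t p
      have e2 : HasFDerivAt ((fun q : ℝ × P d => Φ q.1 q.2) ∘ fun y : P d => ((t, y) : ℝ × P d)) ((fderiv ℝ (fun q : ℝ × P d => Φ q.1 q.2) (t, p)).comp (ContinuousLinearMap.inr ℝ ℝ (P d))) p :=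
        hfd.hasFDerivAt.comp p e1
      have e3 : fderiv ℝ (Φ t) p = (fderiv ℝ (fun q : ℝ × P d => Φ q.1 q.2) (t, p)).comp (ContinuousLinearMap.inr ℝ ℝ (P d)) := e2.fderiv
      rw [e3]
      simp
    have h4 : fderiv ℝ (MM Φ γ) (t, p) (0, v) = fderiv ℝ (lft γ : P d → P d) (Φ t p) (fderiv ℝ (Φ t) p v) := by
      have e1 : HasFDerivAt ((lft γ : P d → P d) ∘ fun q : ℝ × P d => Φ q.1 q.2) ((fderiv ℝ (lft γ : P d → P d) (Φ t p)).comp (fderiv ℝ (fun q : ℝ × P d => Φ q.1 q.2) (t, p))) (t, p) :=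
        HasFDerivAt.comp (t, p) (hgl.differentiable (by simp)).differentiableAt.hasFDerivAt hfd.hasFDerivAt
      have e2 : fderiv ℝ (MM Φ γ) (t, p) = (fderiv ℝ (lft γ : P d → P d) (Φ t p)).comp (fderiv ℝ (fun q : ℝ × P d => Φ q.1 q.2) (t, p)) := e1.fderiv
      rw [e2, ContinuousLinearMap.comp_apply, h3]
    have h5 : Qc G (MM Φ γ (t, p)) (fderiv ℝ (MM Φ γ) (t, p) (0, v)) = Qc G (Φ t p) (fderiv ℝ (Φ t) p v) := by
      rw [h4]; exact h2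
    rw [h5]
    refine le_trans ?_ h1
    have h6 : ‖v‖ ^ 2 / C ≤ c * ‖v‖ ^ 2 := by
      calc ‖v‖ ^ 2 / C = (1 / C) * ‖v‖ ^ 2 := by ring
        _ ≤ c * ‖v‖ ^ 2 := mul_le_mul_of_nonneg_right hcC (by positivity)
    have h7 : CQ * ⟪p.2, v.1⟫_ℝ ^ 2 ≤ C * ⟪p.2, v.1⟫_ℝ ^ 2 := mul_le_mul_of_nonneg_right hCQ' (by positivity)
    linarith

end

end Pool.Agent.VD
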