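import Pool.Agent.helper55.VD.SpecE4

/-! Row EFM of project VD (MP_07c750_an): from the function `u` back to the eigenfunction. -/

set_option autoImplicit false

open scoped ContDiff Topology InnerProductSpace ComplexConjugate ENNReal
open MeasureTheory Filter Set

namespace Pool.Agent.VD

open Pool.Agent.VQ (CH KZ PS perZ cmZ)
open Pool.Agent.RPQ (IsOp)
open Pool.Agent.VDA (STP FB FR FT nY OY OA)

noncomputable section

/-- the size of the perturbation -/
theorem EFM_small {R x y : ℝ} (hR : 256 ≤ R) (h1 : |x| ≤ R ^ (1 / 100 : ℝ) / R) (h2 : |y - x| ≤ R ^ (-3 : ℝ)) : |Real.exp y - 1| ≤ R ^ (-(1 / 2) : ℝ) := by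
  have hR0 : (0 : ℝ) < R := by linarith
  have hR1 : (1 : ℝ) ≤ R := by linarith
  have e1 : R ^ (1 / 100 : ℝ) / R = R ^ (-(99 / 100) : ℝ) := by
    rw [div_eq_mul_inv, ← Real.rpow_neg_one R, ← Real.rpow_add hR0]
    norm_num
  have e2 : R ^ (-3 : ℝ) ≤ R ^ (-(99 / 100) : ℝ) := Real.rpow_le_rpow_of_exponent_le hR1 (by norm_num)
  have e3 : |y| ≤ 2 * R ^ (-(99 / 100) : ℝ) := by
    have a1 : |y| ≤ |y - x| + |x| := by
      have := abs_add_le (y - x) x
      rwa [sub_add_cancel] at this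
    rw [e1] at h1
    linarith
  have e4 : 4 * R ^ (-(99 / 100) : ℝ) ≤ R ^ (-(1 / 2) : ℝ) := by
    have a1 : (4 : ℝ) ≤ R ^ (49 / 100 : ℝ) := by
      have a2 : (256 : ℝ) ^ (49 / 100 : ℝ) ≤ R ^ (49 / 100 : ℝ) := Real.rpow_le_rpow (by norm_num) hR (by norm_num)
      have a3 : (4 : ℝ) ≤ (256 : ℝ) ^ (49 / 100 : ℝ) := by
        have a4 : (256 : ℝ) ^ (1 / 4 : ℝ) = 4 := by
          rw [show (256 : ℝ) = 4 ^ (4 : ℝ) by norm_num, ← Real.rpow_mul (by norm_num)]
          norm_num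
        rw [← a4]
        exact Real.rpow_le_rpow_of_exponent_le (by norm_num) (by norm_num)
      exact a3.trans a2
    have a5 : R ^ (-(1 / 2) : ℝ) = R ^ (49 / 100 : ℝ) * R ^ (-(99 / 100) : ℝ) := by
      rw [← Real.rpow_add hR0]
      norm_num
    rw [a5]
    exact mul_le_mul_of_nonneg_right a1 (Real.rpow_nonneg hR0.le _)
  have e5 : R ^ (-(1 / 2) : ℝ) ≤ 1 := Real.rpow_le_one_of_one_le_of_nonpos hR1 (by norm_num)
  have e6 : |y| ≤ 1 := by
    have := Real.rpow_nonneg hR0.le (-(99 / 100) : ℝ)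
    linarith
  have e7 := Real.abs_exp_sub_one_le e6
  linarith

theorem EFM_proof (hEHD : EHD_stmt) (hAMVI : AMVI_stmt) : EFM_stmt := by
  intro d Γ _ _ K k B hK
  refine ⟨256, by norm_num, ?_⟩
  intro R μ F G f f' h φ hR hF hG hE hhc hhb
  have hR0 : (0 : ℝ) < R := by linarith
  obtain ⟨-, hds, hdp, -, -, -, -, hint, -⟩ := hAMVI d Γ K k B G hK hG
  have hfs : ContDiff ℝ ∞ f' := hE.smooth
  have hdens : ∀ x, dens (fun x => Real.exp (f' x) • G x) x = Real.exp ((d : ℝ) / 2 * f' x) * dens G x := fun x =>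
    (((hEHD d G hG.met).2.2.2.2.2.2 f' hfs).2 x).1
  have hres : ∀ g : V d → ℝ, ∫ x in F, g x ∂mv G = ∫ x in F, dens G x * g x := by
    intro g
    have a1 := hint ℝ (F.indicator g)
    rw [integral_indicator hF.meas] at a1
    rw [a1, ← integral_indicator hF.meas]
    refine integral_congr_ae (Eventually.of_forall fun x => ?_)
    show dens G x • F.indicator g x = F.indicator (fun x => dens G x * g x) x
    by_cases hx : x ∈ F
    · rw [indicator_of_mem hx, indicator_of_mem hx, smul_eq_mul]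
    · rw [indicator_of_notMem hx, indicator_of_notMem hx, smul_zero]
  have hsm : ∀ x, |Real.exp (f' x) - 1| ≤ R ^ (-(1 / 2) : ℝ) := fun x => EFM_small hR (hE.sm.bd x) (hE.near x)
  have hu : ∀ x, ‖uE f' φ x‖ ^ 2 = Real.exp (((d : ℝ) - 2) / 2 * f' x) * ‖φ x‖ ^ 2 := by
    intro x
    unfold uE
    rw [norm_mul, mul_pow, Complex.norm_real, Real.norm_eq_abs, abs_of_pos (Real.exp_pos _), ← Real.exp_nat_mul]
    congr 2
    push_cast
    ring
  have hid : ∀ x, ‖φ x‖ ^ 2 * dens (fun x => Real.exp (f' x) • G x) x = Real.exp (f' x) * (dens G x * ‖uE f' φ x‖ ^ 2) := by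
    intro x
    rw [hdens, hu]
    have a1 : Real.exp ((d : ℝ) / 2 * f' x) = Real.exp (f' x) * Real.exp (((d : ℝ) - 2) / 2 * f' x) := by
      rw [← Real.exp_add]
      congr 1
      ring
    rw [a1]
    ring
  -- continuity and integrability
  have hφ : Continuous φ := hE.eig.1.continuous
  have hf' : Continuous f' := hfs.continuous
  have hdc : Continuous (dens G) := hds.continuous
  have huc : Continuous (fun x => ‖uE f' φ x‖ ^ 2) := by
    have : (fun x => ‖uE f' φ x‖ ^ 2) = fun x => Real.exp (((d : ℝ) - 2) / 2 * f' x) * ‖φ x‖ ^ 2 := funext hu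
    rw [this]
    exact (Real.continuous_exp.comp (continuous_const.mul hf')).mul (hφ.norm.pow 2)
  have hI : ∀ g : V d → ℝ, Continuous g → IntegrableOn g F := by
    intro g hg
    obtain ⟨b, hb⟩ := hF.bdd
    have hsub : F ⊆ Metric.closedBall 0 b := fun x hx => mem_closedBall_zero_iff.2 (hb x hx)
    exact (hg.continuousOn.integrableOn_compact (isCompact_closedBall _ _)).mono_set hsub
  have hnn : nn G F (uE f' φ) = ∫ x in F, dens G x * ‖uE f' φ x‖ ^ 2 := hres _
  constructor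
  · have a1 : (∫ x in F, h x * ‖φ x‖ ^ 2 * dens (fun x => Real.exp (f' x) • G x) x) = ∫ x in F, h x * (Real.exp (f' x) * (dens G x * ‖uE f' φ x‖ ^ 2)) := by
      refine setIntegral_congr_fun hF.meas fun x _ => ?_
      show h x * ‖φ x‖ ^ 2 * dens (fun x => Real.exp (f' x) • G x) x = h x * (Real.exp (f' x) * (dens G x * ‖uE f' φ x‖ ^ 2))
      rw [mul_assoc, hid]
    have a2 := hres (fun z => h z * ‖uE f' φ z‖ ^ 2)
    have i1 : IntegrableOn (fun x => h x * (Real.exp (f' x) * (dens G x * ‖uE f' φ x‖ ^ 2))) F :=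
      hI _ (hhc.mul ((Real.continuous_exp.comp hf').mul (hdc.mul huc)))
    have i2 : IntegrableOn (fun x => dens G x * (h x * ‖uE f' φ x‖ ^ 2)) F := hI _ (hdc.mul (hhc.mul huc))
    rw [a1, a2, ← integral_sub i1 i2]
    have a3 : ∀ x, h x * (Real.exp (f' x) * (dens G x * ‖uE f' φ x‖ ^ 2)) - dens G x * (h x * ‖uE f' φ x‖ ^ 2) = (h x * (Real.exp (f' x) - 1)) * (dens G x * ‖uE f' φ x‖ ^ 2) := fun x => by ring
    simp only [a3]
    rw [hnn, ← integral_const_mul, ← Real.norm_eq_abs]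
    refine (norm_integral_le_integral_norm _).trans ?_
    refine setIntegral_mono_on ?_ (hI _ (continuous_const.mul (hdc.mul huc))) hF.meas ?_
    · exact (hI _ ((hhc.mul ((Real.continuous_exp.comp hf').sub continuous_const)).mul (hdc.mul huc))).norm
    · intro x _
      have a4 : 0 ≤ dens G x * ‖uE f' φ x‖ ^ 2 := mul_nonneg (hdp x).le (by positivity)
      rw [Real.norm_eq_abs, abs_mul, abs_of_nonneg a4, abs_mul]
      refine mul_le_mul_of_nonneg_right ?_ a4
      calc |h x| * |Real.exp (f' x) - 1| ≤ 1 * R ^ (-(1 / 2) : ℝ) := mul_le_mul (hhb x) (hsm x) (abs_nonneg _) zero_le_one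
        _ = _ := one_mul _
  · rw [hnn, ← integral_const_mul]
    refine setIntegral_mono_on (hI _ (hdc.mul huc)) ?_ hF.meas ?_
    · have a1 : (fun x => 2 * (‖φ x‖ ^ 2 * dens (fun x => Real.exp (f' x) • G x) x)) = fun x => 2 * (Real.exp (f' x) * (dens G x * ‖uE f' φ x‖ ^ 2)) := by
        funext x
        rw [hid]
      rw [a1]
      exact hI _ (continuous_const.mul ((Real.continuous_exp.comp hf').mul (hdc.mul huc)))
    · intro x _
      have a4 : 0 ≤ dens G x * ‖uE f' φ x‖ ^ 2 := mul_nonneg (hdp x).le (by positivity)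
      rw [hid, ← mul_assoc]
      have a5 : R ^ (-(1 / 2) : ℝ) ≤ 1 / 2 := by
        have a6 : R ^ (-(1 / 2) : ℝ) ≤ (256 : ℝ) ^ (-(1 / 2) : ℝ) := Real.rpow_le_rpow_of_nonpos (by norm_num) hR (by norm_num)
        have a7 : (256 : ℝ) ^ (-(1 / 2) : ℝ) = 1 / 16 := by
          rw [Real.rpow_neg (by norm_num), show (256 : ℝ) = 16 ^ (2 : ℝ) by norm_num, ← Real.rpow_mul (by norm_num)]
          norm_num
        linarith
      have a8 := (abs_le.1 (hsm x)).1
      have a9 : 1 ≤ 2 * Real.exp (f' x) := by linarith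
      calc dens G x * ‖uE f' φ x‖ ^ 2 = 1 * (dens G x * ‖uE f' φ x‖ ^ 2) := (one_mul _).symm
        _ ≤ 2 * Real.exp (f' x) * (dens G x * ‖uE f' φ x‖ ^ 2) := mul_le_mul_of_nonneg_right a9 a4

end

end Pool.Agent.VD
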